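import Mathlib

/-!
Prekopa-Leindler (text copied from the module of MP_2a44fd_gt, to keep the closure small).
-/

set_option autoImplicit false

open MeasureTheory Real Set Filter Topology
open scoped ENNReal NNReal

namespace Pool.Agent.MP_5b99fd_an

namespace Pl

theorem aff {c : ℝ} (hc : 0 < c) (d : ℝ) {K S : Set ℝ} (h : ∀ x ∈ K, c * x + d ∈ S) :
    ENNReal.ofReal c * volume K ≤ volume S := by
  have h1 : K ⊆ (fun x => c * x) ⁻¹' ((fun x => x + d) ⁻¹' S) := h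
  refine (mul_le_mul_right (measure_mono h1) _).trans_eq ?_
  rw [Real.volume_preimage_mul_left hc.ne', measure_preimage_add_right, ← mul_assoc,
    ← ENNReal.ofReal_mul hc.le, abs_of_pos (inv_pos.2 hc), mul_inv_cancel₀ hc.ne']
  simp

theorem bmK {A B C : Set ℝ} {l : ℝ} (h0 : 0 < l) (h1 : l < 1) (hA : IsCompact A)
    (hB : IsCompact B) (hA' : A.Nonempty) (hB' : B.Nonempty)
    (h : ∀ x ∈ A, ∀ y ∈ B, (1 - l) * x + l * y ∈ C) :
    ENNReal.ofReal (1 - l) * volume A + ENNReal.ofReal l * volume B ≤ volume C := by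
  obtain ⟨a, ha, ha'⟩ := hA.exists_isGreatest hA'
  obtain ⟨b, hb, hb'⟩ := hB.exists_isLeast hB'
  have h2 : 0 < 1 - l := by linarith
  rw [← measure_inter_add_sdiff C (measurableSet_Iic (a := (1 - l) * a + l * b))]
  refine add_le_add (aff h2 (l * b) fun x hx => ⟨h x hx b hb, ?_⟩) ?_
  · have := mul_le_mul_of_nonneg_left (ha' hx) h2.le
    exact mem_Iic.2 (by linarith)
  · rw [← measure_sdiff_null (s := B) (t := {b}) (by simp)]
    refine aff h0 ((1 - l) * a) fun y hy => ⟨add_comm ((1 - l) * a) _ ▸ h a ha y hy.1, ?_⟩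
    have h3 : b < y := lt_of_le_of_ne (hb' hy.1) (Ne.symm hy.2)
    have := mul_lt_mul_of_pos_left h3 h0
    exact notMem_Iic.2 (by linarith)

/-- Brunn-Minkowski on the line. -/
theorem bm1 {A B C : Set ℝ} {l : ℝ} (h0 : 0 < l) (h1 : l < 1) (hA : MeasurableSet A)
    (hB : MeasurableSet B) (hA' : A.Nonempty) (hB' : B.Nonempty)
    (h : ∀ x ∈ A, ∀ y ∈ B, (1 - l) * x + l * y ∈ C) :
    ENNReal.ofReal (1 - l) * volume A + ENNReal.ofReal l * volume B ≤ volume C := by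
  obtain ⟨a, ha⟩ := hA'
  obtain ⟨b, hb⟩ := hB'
  have key : ∀ {S : Set ℝ}, MeasurableSet S →
      volume S = ⨆ (K) (_ : K ⊆ S ∧ IsCompact K), volume K := fun hS => by
    simp only [iSup_and]; exact hS.measure_eq_iSup_isCompact _
  rw [key hA, key hB]
  simp only [ENNReal.mul_iSup]
  refine ENNReal.biSup_add_biSup_le' ⟨∅, by simp⟩ ⟨∅, by simp⟩ fun K hK K' hK' => ?_
  refine le_trans ?_ (bmK h0 h1 (hK.2.insert a) (hK'.2.insert b) (insert_nonempty _ _)
    (insert_nonempty _ _) fun x hx y hy =>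
      h x (insert_subset ha hK.1 hx) y (insert_subset hb hK'.1 hy))
  gcongr <;> exact subset_insert _ _

theorem cake {f : ℝ → ℝ≥0∞} (hf : Measurable f) (h : ∀ x, f x ≤ 1) :
    ∫⁻ x, f x = ∫⁻ t in Ioi (0 : ℝ), volume {x | ENNReal.ofReal t < f x} := by
  have h1 : ∀ x, f x ≠ ∞ := fun x => ne_top_of_le_ne_top ENNReal.one_ne_top (h x)
  have h2 := lintegral_eq_lintegral_meas_lt (volume : Measure ℝ) (f := fun x => (f x).toReal)
    (ae_of_all _ fun _ => ENNReal.toReal_nonneg) hf.ennreal_toReal.aemeasurable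
  simp only [ENNReal.ofReal_toReal (h1 _)] at h2
  rw [h2]
  refine setLIntegral_congr_fun measurableSet_Ioi fun t ht => ?_
  simp only [ENNReal.ofReal_lt_iff_lt_toReal (le_of_lt ht) (h1 _)]

theorem qc0 (f g h : ℝ → ℝ≥0∞) (l : ℝ) (h0 : 0 < l) (h1 : l < 1) (hf : Measurable f)
    (hg : Measurable g) (hh : Measurable h) (hf1 : ∀ x, f x ≤ 1) (hg1 : ∀ x, g x ≤ 1)
    (hf2 : ∀ y < 1, ∃ x, y < f x) (hg2 : ∀ y < 1, ∃ x, y < g x)
    (H : ∀ x x', min (f x) (g x') ≤ h ((1 - l) * x + l * x')) :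
    ENNReal.ofReal (1 - l) * (∫⁻ x, f x) + ENNReal.ofReal l * ∫⁻ x, g x ≤ ∫⁻ x, h x := by
  refine le_trans ?_ (lintegral_mono fun x => min_le_left (h x) 1)
  rw [cake hf hf1, cake hg hg1, cake (hh.min measurable_const) fun _ => min_le_right _ _]
  refine (add_le_add (lintegral_const_mul_le _ _) (lintegral_const_mul_le _ _)).trans
    ((le_lintegral_add _ _).trans (lintegral_mono fun t => ?_))
  by_cases ht : ENNReal.ofReal t < 1
  · exact bm1 h0 h1 (measurableSet_lt measurable_const hf) (measurableSet_lt measurable_const hg)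
      (hf2 _ ht) (hg2 _ ht) fun x hx y hy => lt_min ((lt_min hx hy).trans_le (H x y)) ht
  · have h2 : {x | ENNReal.ofReal t < f x} = ∅ :=
      eq_empty_of_forall_notMem fun x hx => ht (lt_of_lt_of_le hx (hf1 x))
    have h3 : {x | ENNReal.ofReal t < g x} = ∅ :=
      eq_empty_of_forall_notMem fun x hx => ht (lt_of_lt_of_le hx (hg1 x))
    simp [h2, h3]

theorem amgm {l : ℝ} (h0 : 0 < l) (h1 : l < 1) (u v : ℝ≥0∞) :
    u ^ (1 - l) * v ^ l ≤ ENNReal.ofReal (1 - l) * u + ENNReal.ofReal l * v := by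
  have h2 : 0 < 1 - l := by linarith
  rcases eq_or_ne u ∞ with rfl | hu
  · rw [ENNReal.mul_top (by simpa using h1)]; simp
  rcases eq_or_ne v ∞ with rfl | hv
  · rw [ENNReal.mul_top (a := ENNReal.ofReal l) (by simpa using h0)]; simp
  lift u to ℝ≥0 using hu
  lift v to ℝ≥0 using hv
  have h3 := NNReal.geom_mean_le_arith_mean2_weighted ⟨1 - l, h2.le⟩ ⟨l, h0.le⟩ u v
    (NNReal.eq (sub_add_cancel 1 l))
  rw [← ENNReal.coe_rpow_of_nonneg _ h2.le, ← ENNReal.coe_rpow_of_nonneg _ h0.le,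
    ENNReal.ofReal_eq_coe_nnreal h2.le, ENNReal.ofReal_eq_coe_nnreal h0.le]
  exact_mod_cast h3

theorem min_le_geo {l : ℝ} (h0 : 0 < l) (h1 : l < 1) (u v : ℝ≥0∞) :
    min u v ≤ u ^ (1 - l) * v ^ l := by
  have h2 : 0 < 1 - l := by linarith
  calc min u v = min u v ^ (1 - l) * min u v ^ l := by
        rw [← ENNReal.rpow_add_of_nonneg _ _ h2.le h0.le, sub_add_cancel, ENNReal.rpow_one]
    _ ≤ _ := mul_le_mul' (ENNReal.rpow_le_rpow (min_le_left _ _) h2.le)
        (ENNReal.rpow_le_rpow (min_le_right _ _) h0.le)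

theorem geo_div {l : ℝ} (h0 : 0 < l) (h1 : l < 1) (u v a c : ℝ≥0∞) (ha : a ≠ 0) (ha' : a ≠ ∞)
    (hc : c ≠ 0) (hc' : c ≠ ∞) : (u / a) ^ (1 - l) * (v / c) ^ l =
      u ^ (1 - l) * v ^ l / (a ^ (1 - l) * c ^ l) := by
  have h2 : 0 < 1 - l := by linarith
  rw [ENNReal.div_rpow_of_nonneg _ _ h2.le, ENNReal.div_rpow_of_nonneg _ _ h0.le,
    ENNReal.mul_div_mul_comm (Or.inl (by simp [ha, ha'])) (Or.inr (by simp [hc, hc']))]

theorem sup_norm {f : ℝ → ℝ≥0∞} (ha : ⨆ x, f x ≠ 0) (ha' : ⨆ x, f x ≠ ∞) :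
    ∀ y < 1, ∃ x, y < f x / ⨆ x, f x := by
  intro y hy
  have h1 : y * ⨆ x, f x < ⨆ x, f x := by
    simpa using ENNReal.mul_lt_mul_left ha ha' hy
  obtain ⟨x, hx⟩ := lt_iSup_iff.1 h1
  exact ⟨x, (ENNReal.lt_div_iff_mul_lt (Or.inl ha) (Or.inl ha')).2 hx⟩

theorem pl_bdd {f g h : ℝ → ℝ≥0∞} {l : ℝ} (h0 : 0 < l) (h1 : l < 1) (hf : Measurable f)
    (hg : Measurable g) (hh : Measurable h) (ha' : ⨆ x, f x ≠ ∞) (hc' : ⨆ x, g x ≠ ∞)
    (H : ∀ x y, f x ^ (1 - l) * g y ^ l ≤ h ((1 - l) * x + l * y)) :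
    (∫⁻ x, f x) ^ (1 - l) * (∫⁻ x, g x) ^ l ≤ ∫⁻ x, h x := by
  have h2 : 0 < 1 - l := by linarith
  by_cases ha : ⨆ x, f x = 0
  · simp [ENNReal.iSup_eq_zero.1 ha, h2]
  by_cases hc : ⨆ x, g x = 0
  · simp [ENNReal.iSup_eq_zero.1 hc, h0]
  have h3 := qc0 (fun x => f x / ⨆ x, f x) (fun x => g x / ⨆ x, g x)
    (fun x => h x / ((⨆ x, f x) ^ (1 - l) * (⨆ x, g x) ^ l)) l h0 h1 (hf.div_const _)
    (hg.div_const _) (hh.div_const _)
    (fun x => ENNReal.div_le_of_le_mul (by simpa using le_iSup f x))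
    (fun x => ENNReal.div_le_of_le_mul (by simpa using le_iSup g x)) (sup_norm ha ha')
    (sup_norm hc hc') fun x y => (min_le_geo h0 h1 _ _).trans (by
      rw [geo_div h0 h1 _ _ _ _ ha ha' hc hc']
      exact ENNReal.div_le_div_right (H x y) _)
  simp only [div_eq_mul_inv] at h3
  rw [lintegral_mul_const _ hf, lintegral_mul_const _ hg, lintegral_mul_const _ hh] at h3
  have h4 := (amgm h0 h1 _ _).trans h3
  simp only [← div_eq_mul_inv] at h4
  rw [geo_div h0 h1 _ _ _ _ ha ha' hc hc'] at h4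
  have h5 : (⨆ x, f x) ^ (1 - l) * (⨆ x, g x) ^ l ≠ 0 := by simp [ha, ha', hc, hc']
  have h6 : (⨆ x, f x) ^ (1 - l) * (⨆ x, g x) ^ l ≠ ∞ :=
    ENNReal.mul_ne_top (ENNReal.rpow_ne_top_of_nonneg h2.le ha')
      (ENNReal.rpow_ne_top_of_nonneg h0.le hc')
  rwa [ENNReal.div_le_iff h5 h6, ENNReal.div_mul_cancel h5 h6] at h4

theorem trunc {f : ℝ → ℝ≥0∞} (hf : Measurable f) {r : ℝ} (hr : 0 < r) :
    (∫⁻ x, f x) ^ r = ⨆ N : ℕ, (∫⁻ x, min (f x) N) ^ r := by
  have h1 : ∫⁻ x, f x = ⨆ N : ℕ, ∫⁻ x, min (f x) N := by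
    rw [← lintegral_iSup (fun N => hf.min measurable_const) fun N M h x =>
      min_le_min_left _ (Nat.cast_le.2 h)]
    refine lintegral_congr fun x => ?_
    rw [← inf_iSup_eq, ENNReal.iSup_natCast, inf_top_eq]
  rw [h1]
  exact (ENNReal.orderIsoRpow r hr).map_iSup _

/-- The inequality on a space with a measure. -/
def PL (E : Type) [MeasurableSpace E] [AddCommGroup E] [Module ℝ E] (μ : Measure E) (l : ℝ) :
    Prop :=
  ∀ f g h : E → ℝ≥0∞, Measurable f → Measurable g → Measurable h →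
    (∀ x y, f x ^ (1 - l) * g y ^ l ≤ h ((1 - l) • x + l • y)) →
    (∫⁻ x, f x ∂μ) ^ (1 - l) * (∫⁻ x, g x ∂μ) ^ l ≤ ∫⁻ x, h x ∂μ

theorem pl_real {l : ℝ} (h0 : 0 < l) (h1 : l < 1) : PL ℝ volume l := by
  intro f g h hf hg hh H
  have h2 : 0 < 1 - l := by linarith
  have h3 : ∀ (f : ℝ → ℝ≥0∞) (N : ℕ), ⨆ x, min (f x) N ≠ ∞ := fun f N =>
    ne_top_of_le_ne_top (ENNReal.natCast_ne_top N) (iSup_le fun _ => min_le_right _ _)
  rw [trunc hf h2, trunc hg h0, ENNReal.iSup_mul]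
  refine iSup_le fun N => ?_
  rw [ENNReal.mul_iSup]
  refine iSup_le fun M => pl_bdd h0 h1 (hf.min measurable_const) (hg.min measurable_const) hh
    (h3 f N) (h3 g M) fun x y => le_trans ?_ (H x y)
  exact mul_le_mul' (ENNReal.rpow_le_rpow (min_le_left _ _) h2.le)
    (ENNReal.rpow_le_rpow (min_le_left _ _) h0.le)

variable {E F : Type} [MeasurableSpace E] [AddCommGroup E] [Module ℝ E] [MeasurableSpace F]
  [AddCommGroup F] [Module ℝ F] {μ : Measure E} {ν : Measure F} {l : ℝ}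

theorem PL.prod [SFinite ν] (hE : PL E μ l) (hF : PL F ν l) : PL (E × F) (μ.prod ν) l := by
  intro f g h hf hg hh H
  rw [lintegral_prod _ hf.aemeasurable, lintegral_prod _ hg.aemeasurable,
    lintegral_prod _ hh.aemeasurable]
  exact hE _ _ _ hf.lintegral_prod_right' hg.lintegral_prod_right' hh.lintegral_prod_right'
    fun x y => hF _ _ _ (hf.comp measurable_prodMk_left) (hg.comp measurable_prodMk_left)
      (hh.comp measurable_prodMk_left) fun x' y' => H (x, x') (y, y')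

theorem PL.map (hE : PL E μ l) {φ : E → F} (hφ : MeasurePreserving φ μ ν)
    (hl : ∀ x y, φ ((1 - l) • x + l • y) = (1 - l) • φ x + l • φ y) : PL F ν l := by
  intro f g h hf hg hh H
  rw [← hφ.lintegral_comp hf, ← hφ.lintegral_comp hg, ← hφ.lintegral_comp hh]
  exact hE _ _ _ (hf.comp hφ.measurable) (hg.comp hφ.measurable) (hh.comp hφ.measurable)
    fun x y => (H _ _).trans_eq (congrArg h (hl x y).symm)

theorem pl_pi (h0 : 0 < l) (h1 : l < 1) (n : ℕ) : PL (Fin n → ℝ) volume l := by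
  induction n with
  | zero =>
    intro f g h _ _ _ H
    have h2 : (volume : Measure (Fin 0 → ℝ)) univ = 1 := by simp [volume_pi]
    simp only [lintegral_unique, h2, mul_one]
    exact (H _ _).trans_eq (congrArg h (Subsingleton.elim _ _))
  | succ n ih =>
    refine ((pl_real h0 h1).prod ih).map
      (volume_preserving_piFinSuccAbove (fun _ : Fin (n + 1) => ℝ) 0).symm fun x y => ?_
    ext i
    refine Fin.cases ?_ (fun i => ?_) i <;> simp

end Pl

end Pool.Agent.MP_5b99fd_an
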