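import Mathlib
import Pool.Agent.MP_5b99fd_an.PL

/-!
Brunn's concavity principle and integration over slices.
-/

set_option autoImplicit false

open MeasureTheory Real Set Filter Topology
open scoped ENNReal NNReal

namespace Pool.Agent.MP_5b99fd_an

abbrev Eu (n : ℕ) := EuclideanSpace ℝ (Fin n)

variable {m : ℕ}

theorem vol_scale {A : Set (Fin m → ℝ)} {a : ℝ} (ha : 0 < a) :
    volume ((fun x => a • x) ⁻¹' A) = ENNReal.ofReal ((a ^ m)⁻¹) * volume A := by
  rw [Measure.addHaar_preimage_smul volume ha.ne', abs_of_pos (by positivity)]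
  simp

/-- Brunn-Minkowski. -/
theorem bm {A B C : Set (Fin m → ℝ)} {l a b : ℝ} (h0 : 0 < l) (h1 : l < 1) (ha : 0 < a)
    (hb : 0 < b) (hA : MeasurableSet A) (hB : MeasurableSet B) (hC : MeasurableSet C)
    (vA : volume A = ENNReal.ofReal (a ^ m)) (vB : volume B = ENNReal.ofReal (b ^ m))
    (h : ∀ x ∈ A, ∀ y ∈ B, (1 - l) • x + l • y ∈ C) :
    ENNReal.ofReal (((1 - l) * a + l * b) ^ m) ≤ volume C := by
  have h2 : 0 < 1 - l := by linarith
  set s := (1 - l) * a + l * b with hs
  have s0 : 0 < s := by positivity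
  have k0 : 0 < l * b / s := by positivity
  have k2 : 1 - l * b / s = (1 - l) * a / s := by field_simp; ring
  have k3 : 0 < 1 - l * b / s := by rw [k2]; positivity
  have k1 : l * b / s < 1 := by linarith
  have ms : ∀ {S : Set (Fin m → ℝ)} (c : ℝ), MeasurableSet S →
      MeasurableSet ((fun x => c • x) ⁻¹' S) := fun c hS => hS.preimage (by fun_prop)
  have key := Pl.pl_pi k0 k1 m (((fun x => a • x) ⁻¹' A).indicator 1)
    (((fun x => b • x) ⁻¹' B).indicator 1) (((fun x => s • x) ⁻¹' C).indicator 1)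
    (measurable_one.indicator (ms a hA)) (measurable_one.indicator (ms b hB))
    (measurable_one.indicator (ms s hC)) fun x y => by
      by_cases hx : a • x ∈ A
      · by_cases hy : b • y ∈ B
        · have h3 : s • ((1 - l * b / s) • x + (l * b / s) • y) ∈ C := by
            convert h _ hx _ hy using 1
            rw [k2, smul_add, smul_smul, smul_smul, smul_smul, smul_smul]
            congr 2 <;> field_simp
          rw [indicator_of_mem (by exact hx), indicator_of_mem (by exact hy),
            indicator_of_mem (by exact h3)]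
          simp
        · rw [indicator_of_notMem (s := (fun x => b • x) ⁻¹' B) (by exact hy)]
          simp [k0]
      · rw [indicator_of_notMem (s := (fun x => a • x) ⁻¹' A) (by exact hx)]
        simp [k3]
  rw [lintegral_indicator_one (ms a hA), lintegral_indicator_one (ms b hB),
    lintegral_indicator_one (ms s hC), vol_scale ha, vol_scale hb, vol_scale s0, vA, vB,
    ← ENNReal.ofReal_mul (by positivity), ← ENNReal.ofReal_mul (by positivity),
    inv_mul_cancel₀ (by positivity), inv_mul_cancel₀ (by positivity)] at key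
  simp only [ENNReal.ofReal_one, ENNReal.one_rpow, mul_one] at key
  refine (mul_one _).symm.trans_le ((mul_le_mul_right key _).trans_eq ?_)
  rw [← mul_assoc, ← ENNReal.ofReal_mul (by positivity), mul_inv_cancel₀ (by positivity)]
  simp

/-- The point with `i`-th coordinate `t` and other coordinates `y`. -/
noncomputable def ins (i : Fin (m + 1)) (z : ℝ × (Fin m → ℝ)) : Eu (m + 1) :=
  WithLp.toLp 2 (Fin.insertNth i z.1 z.2)

theorem ins_mp (i : Fin (m + 1)) : MeasurePreserving (ins i) volume volume :=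
  (PiLp.volume_preserving_toLp (Fin (m + 1))).comp
    (volume_preserving_piFinSuccAbove (fun _ : Fin (m + 1) => ℝ) i).symm

theorem ins_same (i : Fin (m + 1)) (z : ℝ × (Fin m → ℝ)) : ins i z i = z.1 := by simp [ins]

theorem ins_other (i : Fin (m + 1)) (z : ℝ × (Fin m → ℝ)) (j : Fin m) :
    ins i z (i.succAbove j) = z.2 j := by simp [ins]

theorem ins_self (i : Fin (m + 1)) (x : Eu (m + 1)) :
    ins i (x i, fun j => x (i.succAbove j)) = x := by
  ext k
  refine Fin.succAboveCases i ?_ (fun j => ?_) k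
  · exact ins_same _ _
  · exact ins_other _ _ _

theorem ins_comb (i : Fin (m + 1)) (a b s t : ℝ) (x y : Fin m → ℝ) :
    ins i (a * s + b * t, a • x + b • y) = a • ins i (s, x) + b • ins i (t, y) := by
  ext k
  refine Fin.succAboveCases i ?_ (fun j => ?_) k <;> simp [ins_same, ins_other]

theorem ins_cont (i : Fin (m + 1)) : Continuous (ins i) := by
  unfold ins
  fun_prop

/-- The slice of `P` at height `t`. -/
def sl (i : Fin (m + 1)) (P : Set (Eu (m + 1))) (t : ℝ) : Set (Fin m → ℝ) := {y | ins i (t, y) ∈ P}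

theorem sl_open {i : Fin (m + 1)} {P : Set (Eu (m + 1))} (hP : IsOpen P) (t : ℝ) :
    IsOpen (sl i P t) := hP.preimage ((ins_cont i).comp (by fun_prop))

theorem int_slice (i : Fin (m + 1)) {P : Set (Eu (m + 1))} (hP : IsOpen P)
    (hb : Bornology.IsBounded P) {F : ℝ → ℝ} (hF : Continuous F) :
    ∫ x in P, F (x i) = ∫ t, F t * volume.real (sl i P t) := by
  have h1 : IntegrableOn (fun x : Eu (m + 1) => F (x i)) P :=
    ((hF.comp (by fun_prop)).continuousOn.integrableOn_compact hb.isCompact_closure).mono_set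
      subset_closure
  have h2 := (integrable_indicator_iff hP.measurableSet).2 h1
  rw [← integral_indicator hP.measurableSet]
  have h3 := (ins_mp i).integrable_comp_of_integrable h2
  rw [← (ins_mp i).map_eq, integral_map (ins_mp i).aemeasurable
    (by rw [(ins_mp i).map_eq]; exact h2.aestronglyMeasurable), Measure.volume_eq_prod]
  refine (integral_prod _ h3).trans (integral_congr_ae (ae_of_all _ fun t => ?_))
  have h4 : (fun y => P.indicator (fun x : Eu (m + 1) => F (x i)) (ins i (t, y))) =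
      (sl i P t).indicator fun _ => F t := by
    ext y
    by_cases hy : ins i (t, y) ∈ P
    · rw [indicator_of_mem hy, indicator_of_mem (by exact hy), ins_same]
    · rw [indicator_of_notMem hy, indicator_of_notMem (by exact hy)]
  simp only [Function.comp_def, h4]
  rw [integral_indicator_const _ (sl_open hP t).measurableSet, smul_eq_mul, mul_comm]

/-- A bounded open convex body is a needle with an `1 / m`-concave profile. -/
theorem profile (hm : 1 ≤ m) (i : Fin (m + 1)) {P : Set (Eu (m + 1))} (hP : IsOpen P)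
    (hc : Convex ℝ P) (hb : Bornology.IsBounded P) (hne : P.Nonempty) :
    ∃ (a b C : ℝ) (l : ℝ → ℝ), a < b ∧ ConcaveOn ℝ (Ioo a b) l ∧
      (∀ t ∈ Ioo a b, 0 < l t ∧ l t ≤ C) ∧
      ∀ F : ℝ → ℝ, Continuous F → ∫ x in P, F (x i) = ∫ t in Ioo a b, F t * l t ^ m := by
  obtain ⟨R, R0, hR⟩ := hb.subset_ball_lt 0 0
  have hco : ∀ x ∈ P, ∀ k, |x k| < R := fun x hx k =>
    (PiLp.norm_apply_le x k).trans_lt (mem_ball_zero_iff.1 (hR hx))
  set I : Set ℝ := (fun x : Eu (m + 1) => x i) '' P with hI
  have I1 : BddBelow I := ⟨-R, by rintro _ ⟨x, hx, rfl⟩; exact (abs_lt.1 (hco x hx i)).1.le⟩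
  have I2 : BddAbove I := ⟨R, by rintro _ ⟨x, hx, rfl⟩; exact (abs_lt.1 (hco x hx i)).2.le⟩
  have I3 : I.Nonempty := hne.image _
  have I4 : I.OrdConnected :=
    (hc.is_linear_image (EuclideanSpace.projₗ (𝕜 := ℝ) i).isLinear).ordConnected
  have I5 : ∀ t, t ∈ I ↔ (sl i P t).Nonempty := fun t =>
    ⟨by rintro ⟨x, hx, rfl⟩; exact ⟨_, show ins i _ ∈ P by rwa [ins_self]⟩,
      fun ⟨y, hy⟩ => ⟨_, hy, ins_same _ _⟩⟩
  have I6 : IsOpen I := by
    rw [isOpen_iff_mem_nhds]
    intro t ht
    obtain ⟨y, hy⟩ := (I5 t).1 ht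
    have h1 : Continuous fun s : ℝ => ins i (s, y) := (ins_cont i).comp (by fun_prop)
    filter_upwards [(hP.preimage h1).mem_nhds hy] with s hs using (I5 s).2 ⟨y, hs⟩
  have I7 : I = Ioo (sInf I) (sSup I) := by
    ext t
    constructor
    · intro ht
      obtain ⟨u, v, h1, h2⟩ := mem_nhds_iff_exists_Ioo_subset.1 (I6.mem_nhds ht)
      obtain ⟨u', h3, h4⟩ := exists_between h1.1
      obtain ⟨v', h5, h6⟩ := exists_between h1.2
      exact ⟨(csInf_le I1 (h2 ⟨h3, h4.trans h1.2⟩)).trans_lt h4,
        h5.trans_le (le_csSup I2 (h2 ⟨h1.1.trans h5, h6⟩))⟩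
    · rintro ⟨h1, h2⟩
      obtain ⟨u, hu, h3⟩ := exists_lt_of_csInf_lt I3 h1
      obtain ⟨v, hv, h4⟩ := exists_lt_of_lt_csSup I3 h2
      exact I4.out hu hv ⟨h3.le, h4.le⟩
  have hsub : ∀ t, sl i P t ⊆ Metric.ball 0 R := fun t y hy => by
    rw [mem_ball_zero_iff, pi_norm_lt_iff R0]
    intro j
    simpa [ins_other] using hco _ hy (i.succAbove j)
  have hfin : ∀ t, volume (sl i P t) ≠ ∞ := fun t =>
    ((measure_mono (hsub t)).trans_lt measure_ball_lt_top).ne
  have hm0 : m ≠ 0 := by omega
  set l : ℝ → ℝ := fun t => volume.real (sl i P t) ^ (m⁻¹ : ℝ) with hl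
  have l1 : ∀ t, l t ^ m = volume.real (sl i P t) := fun t =>
    Real.rpow_inv_natCast_pow measureReal_nonneg hm0
  have l2 : ∀ t ∈ I, 0 < l t := fun t ht => Real.rpow_pos_of_pos
    (ENNReal.toReal_pos ((sl_open hP t).measure_pos volume ((I5 t).1 ht)).ne' (hfin t)) _
  have l3 : ∀ t, volume (sl i P t) = ENNReal.ofReal (l t ^ m) := fun t => by
    rw [l1, ofReal_measureReal (hfin t)]
  obtain ⟨t0, ht0⟩ := I3
  have hab : sInf I < sSup I := by rw [I7] at ht0; exact ht0.1.trans ht0.2
  refine ⟨sInf I, sSup I, volume.real (Metric.ball (0 : Fin m → ℝ) R) ^ (m⁻¹ : ℝ), l, hab, ?_,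
    fun t ht => ⟨l2 t (I7 ▸ ht), Real.rpow_le_rpow measureReal_nonneg
      (measureReal_mono (hsub t) measure_ball_lt_top.ne) (by positivity)⟩, fun F hF => ?_⟩
  · rw [← I7]
    refine concaveOn_iff_forall_pos.2 ⟨I4.convex, fun s hs t ht a b ha hb hab => ?_⟩
    obtain rfl : a = 1 - b := by linarith
    have h1 := bm hb (by linarith) (l2 s hs) (l2 t ht) (sl_open hP s).measurableSet
      (sl_open hP t).measurableSet (sl_open hP ((1 - b) * s + b * t)).measurableSet (l3 s) (l3 t)
      fun x hx y hy => show ins i _ ∈ P by rw [ins_comb]; exact hc hx hy ha.le hb.le hab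
    have h2 : 0 ≤ l ((1 - b) * s + b * t) := Real.rpow_nonneg measureReal_nonneg _
    rw [l3, ENNReal.ofReal_le_ofReal_iff (by positivity)] at h1
    exact le_of_pow_le_pow_left₀ hm0 h2 h1
  · rw [int_slice i hP hb hF, ← I7, ← setIntegral_eq_integral_of_forall_compl_eq_zero (s := I)]
    · simp only [l1]
    · intro t ht
      rw [I5, not_nonempty_iff_eq_empty] at ht
      simp [ht]

end Pool.Agent.MP_5b99fd_an
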