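import Mathlib
import Pool.Agent.MP_5b99fd_an.Slice

/-!
Payne-Weinberger bisection.
-/

set_option autoImplicit false

open MeasureTheory Real Set Filter Topology

namespace Pool.Agent.MP_5b99fd_an

variable {n : ℕ}

theorem null_plane {i j : Fin n} (hij : i ≠ j) (z : Eu n) (θ : ℝ) :
    ∀ᵐ x : Eu n, cos θ * (x i - z i) + sin θ * (x j - z j) ≠ 0 := by
  let φ : Eu n →ₗ[ℝ] ℝ := cos θ • EuclideanSpace.projₗ (𝕜 := ℝ) i + sin θ • EuclideanSpace.projₗ j
  have h1 : LinearMap.ker φ ≠ ⊤ := by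
    intro h
    have h2 : φ (EuclideanSpace.single i (cos θ) + EuclideanSpace.single j (sin θ)) = 0 :=
      LinearMap.mem_ker.1 (h ▸ Submodule.mem_top)
    simp [φ, hij, hij.symm] at h2
    nlinarith [sin_sq_add_cos_sq θ]
  have h2 := (measure_preimage_add_right volume (-z) (LinearMap.ker φ : Set (Eu n))).trans
    (Measure.addHaar_submodule volume _ h1)
  rw [ae_iff]
  convert h2 using 2
  ext x
  simp [φ, sub_eq_add_neg]

theorem cut {K : Set (Eu n)} (hK : IsOpen K) (hc : Convex ℝ K) {f G : Eu n → ℝ}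
    (hf : IntegrableOn f K) (hG : IntegrableOn G K) (h0 : ∫ x in K, f x = 0)
    (h1 : ∫ x in K, G x < 0) {i j : Fin n} (hij : i ≠ j) (z : Eu n) :
    ∃ K' ⊆ K, IsOpen K' ∧ Convex ℝ K' ∧ ∫ x in K', f x = 0 ∧ ∫ x in K', G x < 0 ∧
      ∀ x ∈ K', ¬ (x i = z i ∧ x j = z j) := by
  set L : ℝ → Eu n → ℝ := fun θ x => cos θ * (x i - z i) + sin θ * (x j - z j) with hL
  set H : ℝ → Set (Eu n) := fun θ => {x | 0 < L θ x} with hH
  have Ho : ∀ θ, IsOpen (H θ) := fun θ => isOpen_lt continuous_const (by simp only [hL]; fun_prop)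
  have Hc : ∀ θ, Convex ℝ (H θ) := fun θ x hx y hy a b ha hb hab => by
    have e : L θ (a • x + b • y) = a * L θ x + b * L θ y := by
      obtain rfl : a = 1 - b := by linarith
      simp [hL]; ring
    have hx' : 0 < L θ x := hx
    have hy' : 0 < L θ y := hy
    show 0 < L θ _
    rw [e]
    rcases ha.eq_or_lt with rfl | ha
    · obtain rfl : b = 1 := by linarith
      linarith
    · positivity
  have Lpi : ∀ θ x, L (θ + π) x = -L θ x := fun θ x => by simp [hL]; ring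
  have split : ∀ θ {g : Eu n → ℝ}, IntegrableOn g K →
      (∫ x in K ∩ H θ, g x) + ∫ x in K ∩ H (θ + π), g x = ∫ x in K, g x := fun θ g hg => by
    rw [← integral_inter_add_sdiff (Ho θ).measurableSet hg]
    congr 1
    refine setIntegral_congr_set ?_
    filter_upwards [null_plane hij z θ] with x hx
    have hx' : L θ x ≠ 0 := hx
    refine propext (and_congr_right fun _ => ?_)
    show 0 < L (θ + π) x ↔ ¬ 0 < L θ x
    rw [Lpi, neg_pos, not_lt]
    exact ⟨le_of_lt, fun h => lt_of_le_of_ne h hx'⟩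
  set I : ℝ → ℝ := fun θ => ∫ x in K, (H θ).indicator f x with hI
  have I1 : ∀ θ, I θ = ∫ x in K ∩ H θ, f x := fun θ => setIntegral_indicator (Ho θ).measurableSet
  have I2 : Continuous I := by
    refine continuous_iff_continuousAt.2 fun θ => continuousAt_of_dominated (bound := fun x => ‖f x‖)
      (Eventually.of_forall fun t => hf.aestronglyMeasurable.indicator (Ho t).measurableSet)
      (Eventually.of_forall fun t => ae_of_all _ fun x => norm_indicator_le_norm_self _ _) hf.norm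
      (ae_restrict_of_ae ?_)
    filter_upwards [null_plane hij z θ] with x hx
    have c : Continuous fun t => L t x := by simp only [hL]; fun_prop
    rcases lt_or_gt_of_ne hx with h | h
    · refine (continuousAt_const (y := (0 : ℝ))).congr ?_
      filter_upwards [(isOpen_lt c continuous_const).mem_nhds h] with t ht
      exact (indicator_of_notMem (show x ∉ H t from not_lt.2 (le_of_lt ht)) f).symm
    · refine (continuousAt_const (y := f x)).congr ?_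
      filter_upwards [(isOpen_lt continuous_const c).mem_nhds h] with t ht
      exact (indicator_of_mem (show x ∈ H t from ht) _).symm
  have I3 : ∀ θ, I θ + I (θ + π) = 0 := fun θ => by rw [I1, I1, split θ hf, h0]
  obtain ⟨θ, hθ⟩ : ∃ θ, I θ = 0 := by
    have e := I3 0
    rcases le_total (I 0) 0 with h | h
    · exact mem_range_of_exists_le_of_exists_ge I2 ⟨0, h⟩ ⟨0 + π, by linarith⟩
    · exact mem_range_of_exists_le_of_exists_ge I2 ⟨0 + π, by linarith⟩ ⟨0, h⟩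
  have fin : ∀ θ, I θ = 0 → ∫ x in K ∩ H θ, G x < 0 → ∃ K' ⊆ K, IsOpen K' ∧ Convex ℝ K' ∧
      ∫ x in K', f x = 0 ∧ ∫ x in K', G x < 0 ∧ ∀ x ∈ K', ¬ (x i = z i ∧ x j = z j) :=
    fun θ k1 k2 => ⟨_, inter_subset_left, hK.inter (Ho θ), hc.inter (Hc θ), I1 θ ▸ k1, k2,
      fun x hx e => by
        have : 0 < L θ x := hx.2
        simp [hL, e.1, e.2] at this⟩
  by_cases h : ∫ x in K ∩ H θ, G x < 0
  · exact fin θ hθ h
  · exact fin (θ + π) (by linarith [I3 θ]) (by linarith [split θ hG])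

theorem cuts {K : Set (Eu n)} (hK : IsOpen K) (hc : Convex ℝ K) (hb : Bornology.IsBounded K)
    {f G : Eu n → ℝ} (hf : IntegrableOn f K) (hG : IntegrableOn G K) (h0 : ∫ x in K, f x = 0)
    (h1 : ∫ x in K, G x < 0) {ε : ℝ} (ε0 : 0 < ε) :
    ∃ P ⊆ K, IsOpen P ∧ Convex ℝ P ∧ ∫ x in P, f x = 0 ∧ ∫ x in P, G x < 0 ∧
      ∀ i j : Fin n, i ≠ j → ∀ a b : ℤ, ∀ x ∈ P, ¬ (x i = ε * a ∧ x j = ε * b) := by
  classical
  have key : ∀ s : Finset ((Fin n × Fin n) × ℤ × ℤ), ∃ P ⊆ K, IsOpen P ∧ Convex ℝ P ∧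
      ∫ x in P, f x = 0 ∧ ∫ x in P, G x < 0 ∧ ∀ t ∈ s, t.1.1 ≠ t.1.2 →
        ∀ x ∈ P, ¬ (x t.1.1 = ε * t.2.1 ∧ x t.1.2 = ε * t.2.2) := by
    intro s
    induction s using Finset.induction_on with
    | empty => exact ⟨K, subset_rfl, hK, hc, h0, h1, by simp⟩
    | insert t s _ ih =>
      obtain ⟨P, k1, k2, k3, k4, k5, k6⟩ := ih
      by_cases ht : t.1.1 = t.1.2
      · exact ⟨P, k1, k2, k3, k4, k5, Finset.forall_mem_insert _ _ _ |>.2 ⟨fun h => (h ht).elim, k6⟩⟩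
      obtain ⟨Q, q1, q2, q3, q4, q5, q6⟩ := cut k2 k3 (hf.mono_set k1) (hG.mono_set k1) k4 k5 ht
        (WithLp.toLp 2 fun l => if l = t.1.1 then ε * t.2.1 else ε * t.2.2)
      refine ⟨Q, q1.trans k1, q2, q3, q4, q5, Finset.forall_mem_insert _ _ _ |>.2
        ⟨fun _ x hx => ?_, fun t' ht' h x hx => k6 t' ht' h x (q1 hx)⟩⟩
      simpa [Ne.symm ht] using q6 x hx
  obtain ⟨R, hR⟩ := hb.subset_ball 0
  obtain ⟨P, k1, k2, k3, k4, k5, k6⟩ :=
    key (Finset.univ ×ˢ Finset.Icc (-⌈R / ε⌉) ⌈R / ε⌉ ×ˢ Finset.Icc (-⌈R / ε⌉) ⌈R / ε⌉)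
  refine ⟨P, k1, k2, k3, k4, k5, fun i j hij a b x hx e => k6 ((i, j), a, b) ?_ hij x hx e⟩
  have bd : ∀ (l : Fin n) (c : ℤ), x l = ε * c → c ∈ Finset.Icc (-⌈R / ε⌉) ⌈R / ε⌉ := by
    intro l c hl
    have h2 : |x l| < R := (PiLp.norm_apply_le x l).trans_lt (mem_ball_zero_iff.1 (hR (k1 hx)))
    rw [hl, abs_mul, abs_of_pos ε0, mul_comm, ← lt_div_iff₀ ε0] at h2
    have h3 : |c| ≤ ⌈R / ε⌉ := by
      have := h2.le.trans (Int.le_ceil _)
      rwa [← Int.cast_abs, Int.cast_le] at this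
    exact Finset.mem_Icc.2 (abs_le.1 h3)
  exact Finset.mem_product.2 ⟨Finset.mem_univ _, Finset.mem_product.2 ⟨bd i a e.1, bd j b e.2⟩⟩

theorem thin {P : Set (Eu (n + 1))} (hc : Convex ℝ P) (hb : Bornology.IsBounded P)
    (hne : P.Nonempty) {ε : ℝ} (ε0 : 0 < ε)
    (h : ∀ i j : Fin (n + 1), i ≠ j → ∀ a b : ℤ, ∀ x ∈ P, ¬ (x i = ε * a ∧ x j = ε * b)) :
    ∃ (i : Fin (n + 1)) (q v : Eu (n + 1)), v i = 1 ∧
      ∀ z ∈ P, ∀ j, |z j - (q + z i • v) j| ≤ 60 * ε := by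
  obtain ⟨R, hR⟩ := hb.subset_ball 0
  have hco : ∀ x ∈ P, ∀ l, |x l| < R := fun x hx l =>
    (PiLp.norm_apply_le x l).trans_lt (mem_ball_zero_iff.1 (hR hx))
  set A : Set ℝ := {d | ∃ i, ∃ x ∈ P, ∃ y ∈ P, d = y i - x i} with hA
  have A1 : BddAbove A := ⟨2 * R, by
    rintro _ ⟨i, x, hx, y, hy, rfl⟩
    linarith [(abs_lt.1 (hco x hx i)).1, (abs_lt.1 (hco y hy i)).2]⟩
  have A2 : ∀ i, ∀ x ∈ P, ∀ y ∈ P, |y i - x i| ≤ sSup A := fun i x hx y hy =>
    abs_le.2 ⟨by linarith [le_csSup A1 ⟨i, y, hy, x, hx, rfl⟩], le_csSup A1 ⟨i, x, hx, y, hy, rfl⟩⟩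
  obtain ⟨x0, hx0⟩ := hne
  by_cases hD : sSup A ≤ 40 * ε
  · refine ⟨0, x0 - EuclideanSpace.single 0 (x0 0), EuclideanSpace.single 0 1, by simp,
      fun z hz j => ?_⟩
    by_cases hj : j = 0
    · simp [hj, ε0.le]
    · simpa [hj] using (A2 j x0 hx0 z hz).trans (by linarith)
  obtain ⟨D, ⟨i, x, hx, y, hy, eD⟩, hD'⟩ := exists_lt_of_lt_csSup
    (show A.Nonempty from ⟨_, 0, x0, hx0, x0, hx0, rfl⟩) (show sSup A / 2 < sSup A by linarith)
  have D1 : 20 * ε < D := by linarith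
  have D0 : 0 < D := by linarith
  refine ⟨i, x - (x i / D) • (y - x), D⁻¹ • (y - x), by simp [← eD, D0.ne'], fun z hz j => ?_⟩
  obtain ⟨σ, hσ⟩ : ∃ σ, y j - x j = σ * D := ⟨(y j - x j) / D, by field_simp⟩
  obtain ⟨ζ, hζ⟩ : ∃ ζ, z i = x i + ζ := ⟨z i - x i, by ring⟩
  obtain ⟨δ, hδ⟩ : ∃ δ, z j = x j + ζ * σ + δ := ⟨z j - x j - ζ * σ, by ring⟩
  have e0 : z j - (x - (x i / D) • (y - x) + z i • D⁻¹ • (y - x)) j = δ := by
    simp only [PiLp.add_apply, PiLp.sub_apply, PiLp.smul_apply, smul_eq_mul]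
    rw [hσ, hδ, hζ]; field_simp; ring
  rw [e0]
  by_contra hlt
  rw [not_le] at hlt
  have δ0 : δ ≠ 0 := by rintro rfl; simp at hlt; linarith
  have hij : i ≠ j := by
    rintro rfl
    have : σ = 1 := by rw [← eD] at hσ; exact mul_right_cancel₀ D0.ne' (by linarith)
    exact δ0 (by rw [this] at hδ; linarith)
  have b1 : |σ| ≤ 2 := by
    have := A2 j x hx y hy
    rw [hσ, abs_mul, abs_of_pos D0] at this
    exact le_of_mul_le_mul_right (by linarith) D0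
  have b2 : |ζ| ≤ 2 * D := by
    have := A2 i x hx z hz
    rw [hζ, add_sub_cancel_left] at this
    linarith
  have rd : ∀ g : ℝ, ∃ (c : ℤ) (e : ℝ), |e| ≤ ε ∧ ε * c = g + e := fun g =>
    ⟨⌈g / ε⌉, ε * (⌈g / ε⌉ - g / ε), by
      rw [abs_mul, abs_of_pos ε0, abs_of_nonneg (sub_nonneg.2 (Int.le_ceil _))]
      exact mul_le_of_le_one_right ε0.le (by linarith [Int.ceil_lt_add_one (g / ε)]),
      by field_simp; ring⟩
  obtain ⟨c1, e1, b3, k1⟩ := rd ((x i + y i + z i) / 3)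
  obtain ⟨c2, e2, b4, k2⟩ := rd ((x j + y j + z j) / 3)
  obtain ⟨r, hr⟩ : ∃ r, r * δ = e2 - σ * e1 := ⟨(e2 - σ * e1) / δ, by field_simp⟩
  obtain ⟨s, hs⟩ : ∃ s, s * D = e1 - r * ζ := ⟨(e1 - r * ζ) / D, by field_simp⟩
  have b5 : |r| ≤ 1 / 20 := by
    have h2 : |r| * |δ| ≤ 3 * ε := by
      rw [← abs_mul, hr]
      refine (abs_sub _ _).trans ?_
      rw [abs_mul]
      nlinarith [abs_nonneg σ, abs_nonneg e1]
    nlinarith [abs_nonneg r]
  have b6 : |s| ≤ 3 / 20 := by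
    have h2 : |s| * D ≤ ε + 1 / 20 * (2 * D) := by
      rw [← abs_of_pos D0, ← abs_mul, hs, abs_of_pos D0]
      refine (abs_sub _ _).trans (add_le_add b3 ?_)
      rw [abs_mul]
      exact mul_le_mul b5 b2 (abs_nonneg _) (by norm_num)
    exact le_of_mul_le_mul_right (by linarith) D0
  have hw := hc.sum_mem (t := (Finset.univ : Finset (Fin 3)))
    (w := ![1 / 3 - s - r, 1 / 3 + s, 1 / 3 + r]) (z := ![x, y, z])
    (fun l _ => by
      fin_cases l <;> simp <;> linarith [abs_le.1 b5, abs_le.1 b6])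
    (by simp [Fin.sum_univ_three]; ring) (fun l _ => by fin_cases l <;> simpa)
  refine h i j hij c1 c2 _ hw ⟨?_, ?_⟩
  · simp only [Fin.sum_univ_three, PiLp.add_apply, PiLp.smul_apply, smul_eq_mul]
    simp only [Matrix.cons_val]
    rw [k1]
    linear_combination hs + r * hζ - s * eD
  · simp only [Fin.sum_univ_three, PiLp.add_apply, PiLp.smul_apply, smul_eq_mul]
    simp only [Matrix.cons_val]
    rw [k2]
    linear_combination σ * hs + hr + r * hδ + s * hσ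

end Pool.Agent.MP_5b99fd_an
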