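import Mathlib

/-!
The one-dimensional inequality on a needle.
-/

set_option autoImplicit false

open MeasureTheory Real Set Filter Topology

namespace Pool.Agent.MP_5b99fd_an

/-- Admissible parameters for the Riccati inequality. -/
def Par (m : ℕ) (β lam j k θ : ℝ) : Prop :=
  0 ≤ lam ∧ 0 ≤ k ∧ 0 ≤ θ ∧ lam ≤ 2 * j - 4 * θ ∧ ∀ y s : ℝ,
    0 ≤ k * (m + 1 - k) * y ^ 2 - (k * (β - 2 * j) + j * m) * y * s + (j * (β - 1 - j) + θ) * s ^ 2

/-- A positive quadratic. -/
def quad (κ c1 c0 t : ℝ) : ℝ := κ * t ^ 2 + 2 * c1 * t + c0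

variable {m : ℕ} {β lam j k θ κ c1 c0 : ℝ}

theorem quad_pos (κ0 : 0 < κ) (hq : c1 ^ 2 < κ * c0) (t : ℝ) : 0 < quad κ c1 c0 t := by
  have : 0 < κ * quad κ c1 c0 t := by unfold quad; nlinarith [sq_nonneg (κ * t + c1)]
  exact (mul_pos_iff_of_pos_left κ0).1 this

theorem quad_cont : Continuous (quad κ c1 c0) := by unfold quad; fun_prop

theorem quad_rpow (κ0 : 0 < κ) (hq : c1 ^ 2 < κ * c0) (r : ℝ) :
    Continuous fun t => quad κ c1 c0 t ^ r :=
  quad_cont.rpow_const fun t => Or.inl (quad_pos κ0 hq t).ne'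

theorem point (H : Par m β lam j k θ) (κ0 : 0 < κ) {f y s z U U' g : ℝ} (f0 : 0 < f)
    (hs : f * s ^ 2 ≤ 4 * κ) (hz : z ≤ 0) :
    0 ≤ U' ^ 2 * f + 2 * (lam * κ) * U' * g + lam * κ * U ^ 2
      - 2 * (lam * κ) * g * U * (k * y - j * s)
      - lam * κ * g ^ 2 * (k * (z - y ^ 2) - j * (2 * κ / f - s ^ 2)
        - (k * y - j * s) * (m * y - β * s)) := by
  obtain ⟨h1, h2, h3, h4, h5⟩ := H
  have L0 : 0 ≤ lam * κ := by positivity
  have e1 : s ^ 2 ≤ 4 * (κ / f) := by rw [← mul_div_assoc, le_div_iff₀ f0]; linarith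
  have e2 : 0 < κ / f := by positivity
  have e3 : (k * y - j * s) ^ 2 + lam * (κ / f) ≤ -(k * (z - y ^ 2) - j * (2 * κ / f - s ^ 2)
      - (k * y - j * s) * (m * y - β * s)) := by
    rw [mul_div_assoc]
    nlinarith [h5 y s, mul_nonneg h2 (neg_nonneg.2 hz), mul_le_mul_of_nonneg_left e1 h3,
      mul_le_mul_of_nonneg_right h4 e2.le]
  have e4 := mul_le_mul_of_nonneg_left e3 (mul_nonneg L0 (sq_nonneg g))
  have e5 : 0 ≤ (f * U' + lam * κ * g) ^ 2 / f := by positivity
  have e6 : (f * U' + lam * κ * g) ^ 2 / f =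
      U' ^ 2 * f + 2 * (lam * κ) * U' * g + lam * κ * g ^ 2 * (lam * (κ / f)) := by
    field_simp; ring
  nlinarith [mul_nonneg L0 (sq_nonneg (U - g * (k * y - j * s)))]

theorem smooth (H : Par m β lam j k θ) (κ0 : 0 < κ) (hq : c1 ^ 2 < κ * c0) {a b : ℝ} (hab : a ≤ b)
    {l l' l'' U U' : ℝ → ℝ} (hl : ∀ t, HasDerivAt l (l' t) t) (hl' : ∀ t, HasDerivAt l' (l'' t) t)
    (pos : ∀ t ∈ Icc a b, 0 < l t ∧ l'' t ≤ 0) (hU : ∀ t, HasDerivAt U (U' t) t)
    (cU' : Continuous U') (h0 : ∫ t in a..b, U t * (quad κ c1 c0 t ^ (-β) * l t ^ m) = 0) :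
    lam * κ * ∫ t in a..b, U t ^ 2 * (quad κ c1 c0 t ^ (-β) * l t ^ m) ≤
      ∫ t in a..b, U' t ^ 2 * quad κ c1 c0 t * (quad κ c1 c0 t ^ (-β) * l t ^ m) := by
  set φ := quad κ c1 c0 with hφ
  have φ0 : ∀ t, 0 < φ t := quad_pos κ0 hq
  have cl : Continuous l := continuous_iff_continuousAt.2 fun t => (hl t).continuousAt
  have cU : Continuous U := continuous_iff_continuousAt.2 fun t => (hU t).continuousAt
  have cφ : Continuous φ := quad_cont
  set w : ℝ → ℝ := fun t => φ t ^ (-β) * l t ^ m with hw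
  have cw : Continuous w := (quad_rpow κ0 hq _).mul (cl.pow m)
  set G : ℝ → ℝ := fun t => ∫ x in a..t, U x * w x with hG
  have dG : ∀ t, HasDerivAt G (U t * w t) t := fun t =>
    ((cU.mul cw).integral_hasStrictDerivAt a t).hasDerivAt
  have c2 : Continuous fun t => U t ^ 2 * w t := by fun_prop
  have c3 : Continuous fun t => U' t ^ 2 * φ t * w t := by fun_prop
  set y : ℝ → ℝ := fun t => l' t / l t with hy
  set s : ℝ → ℝ := fun t => (2 * κ * t + 2 * c1) / φ t with hs
  have dφ : ∀ t, HasDerivAt φ (2 * κ * t + 2 * c1) t := fun t => by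
    have := ((((hasDerivAt_id' t).pow 2).const_mul κ).add
      ((hasDerivAt_id' t).const_mul (2 * c1))).add_const c0
    exact this.congr_deriv (by simp; ring)
  set F : ℝ → ℝ := fun t => (∫ x in a..t, U' x ^ 2 * φ x * w x) - lam * κ * (∫ x in a..t, U x ^ 2 * w x)
    - (lam * κ * (G t ^ 2 * ((k * y t - j * s t) / w t)) - 2 * (lam * κ) * (U t * G t)) with hF
  have key : ∀ t ∈ Icc a b, ∃ d, 0 ≤ d ∧ HasDerivAt F d t := by
    intro t ht
    obtain ⟨l0, l2⟩ := pos t ht
    have f0 := φ0 t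
    have w0 : 0 < w t := mul_pos (Real.rpow_pos_of_pos f0 _) (pow_pos l0 _)
    have dy : HasDerivAt y (l'' t / l t - y t ^ 2) t := by
      refine ((hl' t).div (hl t) l0.ne').congr_deriv ?_
      simp only [hy]; field_simp
    have ds : HasDerivAt s (2 * κ / φ t - s t ^ 2) t := by
      refine ((((hasDerivAt_id' t).const_mul (2 * κ)).add_const (2 * c1)).div (dφ t)
        f0.ne').congr_deriv ?_
      simp only [hs]; field_simp
    have dw : HasDerivAt w (w t * (m * y t - β * s t)) t := by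
      refine (((dφ t).rpow_const (p := -β) (Or.inl f0.ne')).mul ((hl t).pow m)).congr_deriv ?_
      simp only [hw, hy, hs, Pi.pow_apply]
      rw [Real.rpow_sub_one f0.ne']
      rcases m with _ | m
      · simp; field_simp
      · simp only [Nat.add_sub_cancel, pow_succ]; field_simp; ring
    have d1 := ((c3.integral_hasStrictDerivAt a t).hasDerivAt.sub
      ((c2.integral_hasStrictDerivAt a t).hasDerivAt.const_mul (lam * κ))).sub
      (((((dG t).pow 2).mul (((dy.const_mul k).sub (ds.const_mul j)).div dw w0.ne')).const_mul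
        (lam * κ)).sub (((hU t).mul (dG t)).const_mul (2 * (lam * κ))))
    refine ⟨_, ?_, d1⟩
    have e1 : φ t * s t ^ 2 ≤ 4 * κ := by
      simp only [hs]
      rw [div_pow, ← mul_div_assoc, div_le_iff₀ (by positivity)]
      have : (2 * κ * t + 2 * c1) ^ 2 ≤ 4 * κ * φ t := by
        simp only [hφ, quad]; nlinarith
      nlinarith
    have e2 := mul_nonneg w0.le (point H κ0 (y := y t) (z := l'' t / l t) (U := U t) (U' := U' t)
      (g := G t / w t) f0 e1 (div_nonpos_of_nonpos_of_nonneg l2 l0.le))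
    refine e2.trans_eq ?_
    simp only [Pi.pow_apply, Pi.sub_apply, Pi.div_apply]
    field_simp
    ring
  have mono : MonotoneOn F (Icc a b) := by
    refine monotoneOn_of_deriv_nonneg (convex_Icc a b) (fun t ht => ?_) (fun t ht => ?_)
      fun t ht => ?_
    · obtain ⟨d, -, h⟩ := key t ht
      exact h.continuousAt.continuousWithinAt
    · obtain ⟨d, -, h⟩ := key t (interior_subset ht)
      exact h.differentiableAt.differentiableWithinAt
    · obtain ⟨d, d0, h⟩ := key t (interior_subset ht)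
      rwa [h.deriv]
  have h1 := mono (left_mem_Icc.2 hab) (right_mem_Icc.2 hab) hab
  have Gb : G b = 0 := h0
  have Ga : G a = 0 := by simp [hG]
  simp only [hF, Ga, Gb, intervalIntegral.integral_same] at h1
  linarith

theorem smooth' (H : Par m β lam j k θ) (κ0 : 0 < κ) (hq : c1 ^ 2 < κ * c0) {a b M : ℝ}
    (hab : a < b) {l l' l'' U U' : ℝ → ℝ} (hl : ∀ t, HasDerivAt l (l' t) t)
    (hl' : ∀ t, HasDerivAt l' (l'' t) t) (pos : ∀ t ∈ Icc a b, 0 < l t ∧ l'' t ≤ 0)
    (hU : ∀ t, HasDerivAt U (U' t) t) (cU' : Continuous U') (hM : ∀ t, |U t| ≤ M) :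
    lam * κ * ∫ t in a..b, U t ^ 2 * quad κ c1 c0 t ^ (-β) * l t ^ m ≤
      (∫ t in a..b, U' t ^ 2 * quad κ c1 c0 t * quad κ c1 c0 t ^ (-β) * l t ^ m) +
        lam * κ * (M * |∫ t in a..b, U t * quad κ c1 c0 t ^ (-β) * l t ^ m|) := by
  simp only [mul_assoc _ (quad κ c1 c0 _ ^ (-β))]
  have cl : Continuous l := continuous_iff_continuousAt.2 fun t => (hl t).continuousAt
  have cU : Continuous U := continuous_iff_continuousAt.2 fun t => (hU t).continuousAt
  set w : ℝ → ℝ := fun t => quad κ c1 c0 t ^ (-β) * l t ^ m with hw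
  have cw : Continuous w := (quad_rpow κ0 hq _).mul (cl.pow m)
  have w0 : ∀ t ∈ Icc a b, 0 < w t := fun t ht =>
    mul_pos (Real.rpow_pos_of_pos (quad_pos κ0 hq t) _) (pow_pos (pos t ht).1 _)
  have Z0 : 0 < ∫ t in a..b, w t := intervalIntegral.intervalIntegral_pos_of_pos_on
    (cw.intervalIntegrable _ _) (fun t ht => w0 t (Ioo_subset_Icc_self ht)) hab
  set Z := ∫ t in a..b, w t with hZ
  set I := ∫ t in a..b, U t * w t with hI
  have i1 : IntervalIntegrable (fun t => U t * w t) volume a b := (cU.mul cw).intervalIntegrable _ _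
  have i2 : IntervalIntegrable (fun t => U t ^ 2 * w t) volume a b :=
    ((cU.pow 2).mul cw).intervalIntegrable _ _
  have i0 : IntervalIntegrable w volume a b := cw.intervalIntegrable _ _
  have h1 : |I| ≤ M * Z := by
    rw [hZ, ← intervalIntegral.integral_const_mul]
    refine (intervalIntegral.abs_integral_le_integral_abs hab.le).trans
      (intervalIntegral.integral_mono_on hab.le i1.abs (i0.const_mul M) fun t ht => ?_)
    rw [abs_mul, abs_of_pos (w0 t ht)]
    exact mul_le_mul_of_nonneg_right (hM t) (w0 t ht).le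
  have h2 : |I / Z| ≤ M := by rwa [abs_div, abs_of_pos Z0, div_le_iff₀ Z0]
  have h3 := smooth H κ0 hq hab.le hl hl' pos (fun t => (hU t).sub_const (I / Z)) cU' (by
    simp only [sub_mul]
    rw [intervalIntegral.integral_sub i1 (i0.const_mul _), intervalIntegral.integral_const_mul]
    exact sub_eq_zero.2 (div_mul_cancel₀ I Z0.ne').symm)
  have h4 : ∫ t in a..b, (U t - I / Z) ^ 2 * w t =
      (∫ t in a..b, U t ^ 2 * w t) - 2 * (I / Z) * I + (I / Z) ^ 2 * Z := by
    rw [hI, hZ, ← intervalIntegral.integral_const_mul, ← intervalIntegral.integral_const_mul,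
      ← intervalIntegral.integral_sub i2 (i1.const_mul _),
      ← intervalIntegral.integral_add (i2.sub (i1.const_mul _)) (i0.const_mul _)]
    exact intervalIntegral.integral_congr fun t _ => by ring
  have h5 : (I / Z) ^ 2 * Z = I / Z * I := by field_simp
  have h6 : I / Z * I ≤ M * |I| :=
    (le_abs_self _).trans ((abs_mul _ _).trans_le (mul_le_mul_of_nonneg_right h2 (abs_nonneg _)))
  have h7 := mul_le_mul_of_nonneg_left h6 (mul_nonneg H.1 κ0.le)
  rw [h4, h5] at h3
  change lam * κ * ∫ t in a..b, U t ^ 2 * w t ≤ _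
  linarith

theorem steklov {f : ℝ → ℝ} (cf : Continuous f) {h : ℝ} (h0 : 0 < h) :
    ∃ S S' : ℝ → ℝ, (∀ t, HasDerivAt S (S' t) t) ∧
      (∀ t, HasDerivAt S' ((f (t + h + h) - f (t + h) - (f (t + h) - f t)) / h / h) t) ∧
      ∀ t, ∃ x ∈ Ioo t (t + 2 * h), S t = f x := by
  have step : ∀ {g g' : ℝ → ℝ}, (∀ t, HasDerivAt g (g' t) t) →
      (∀ t, HasDerivAt (fun t => (g (t + h) - g t) / h) ((g' (t + h) - g' t) / h) t) ∧
      ∀ t, ∃ x ∈ Ioo t (t + h), (g (t + h) - g t) / h = g' x := fun {g g'} hg =>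
    ⟨fun t => (((hg (t + h)).comp_add_const t h).sub (hg t)).div_const h, fun t => by
      obtain ⟨x, hx, e⟩ := exists_hasDerivAt_eq_slope g g' (show t < t + h by linarith)
        (fun x _ => (hg x).continuousAt.continuousWithinAt) fun x _ => hg x
      exact ⟨x, hx, by rw [e, add_sub_cancel_left]⟩⟩
  have d1 : ∀ t, HasDerivAt (fun t => ∫ x in (0 : ℝ)..t, f x) (f t) t := fun t =>
    (cf.integral_hasStrictDerivAt 0 t).hasDerivAt
  obtain ⟨a1, a2⟩ := step d1
  have c1 : Continuous fun t => ((∫ x in (0 : ℝ)..(t + h), f x) - ∫ x in (0 : ℝ)..t, f x) / h :=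
    continuous_iff_continuousAt.2 fun t => (a1 t).continuousAt
  obtain ⟨a3, a4⟩ := step fun t => (c1.integral_hasStrictDerivAt 0 t).hasDerivAt
  refine ⟨_, _, a3, fun t => ((step a1).1 t).congr_deriv (by ring), fun t => ?_⟩
  obtain ⟨x, hx, e⟩ := a4 t
  obtain ⟨z, hz, e'⟩ := a2 x
  exact ⟨z, ⟨hx.1.trans hz.1, by linarith [hx.2, hz.2]⟩, e.trans e'⟩

/-- Smooth concave approximation of a concave profile. -/
theorem approx (m : ℕ) {a b C : ℝ} (hab : a < b) {l : ℝ → ℝ} (hl : ConcaveOn ℝ (Ioo a b) l)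
    (pos : ∀ t ∈ Ioo a b, 0 < l t ∧ l t ≤ C) :
    ∃ (u v : ℕ → ℝ) (S S' S'' : ℕ → ℝ → ℝ), (∀ N, u N < v N ∧ (∀ t, HasDerivAt (S N) (S' N t) t) ∧
      (∀ t, HasDerivAt (S' N) (S'' N t) t) ∧ ∀ t ∈ Icc (u N) (v N), 0 < S N t ∧ S'' N t ≤ 0) ∧
      ∀ F : ℝ → ℝ, Continuous F → Tendsto (fun N => ∫ t in u N..v N, F t * S N t ^ m) atTop
        (𝓝 (∫ t in Ioo a b, F t * l t ^ m)) := by
  set h : ℕ → ℝ := fun N => (b - a) / 5 * (1 / ((N : ℝ) + 1)) with hh
  have h0 : ∀ N, 0 < h N := fun N => mul_pos (by linarith) (by positivity)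
  have h1 : ∀ N, 5 * h N ≤ b - a := fun N => by
    have : 1 / ((N : ℝ) + 1) ≤ 1 := (div_le_one (by positivity)).2 (by simp)
    simp only [hh]; nlinarith
  have h2 : Tendsto h atTop (𝓝 0) := by
    have := (tendsto_one_div_add_atTop_nhds_zero_nat (𝕜 := ℝ)).const_mul ((b - a) / 5)
    rwa [mul_zero] at this
  have cl : ContinuousOn l (Ioo a b) := hl.continuousOn isOpen_Ioo
  have mem : ∀ N t, max (a + h N) (min t (b - h N)) ∈ Ioo a b := fun N t =>
    ⟨lt_max_of_lt_left (by linarith [h0 N]), max_lt (by linarith [h0 N, h1 N])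
      (min_lt_of_right_lt (by linarith [h0 N]))⟩
  have idt : ∀ N t, a + h N ≤ t → t ≤ b - h N → max (a + h N) (min t (b - h N)) = t :=
    fun N t k1 k2 => by rw [min_eq_left k2, max_eq_right k1]
  have cf : ∀ N, Continuous fun t => l (max (a + h N) (min t (b - h N))) := fun N =>
    cl.comp_continuous (by fun_prop) (mem N)
  choose S S' d1 d2 val using fun N => steklov (cf N) (h0 N)
  have bd : ∀ N t, 0 < S N t ∧ S N t ≤ C := fun N t => by
    obtain ⟨x, -, e⟩ := val N t
    exact e ▸ pos _ (mem N x)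
  refine ⟨fun N => a + h N, fun N => b - 3 * h N, S, S', _, fun N =>
    ⟨by linarith [h0 N, h1 N], d1 N, d2 N, fun t ht => ⟨(bd N t).1, ?_⟩⟩, fun F cF => ?_⟩
  · have k0 := h0 N
    obtain ⟨k1, k2⟩ := ht
    rw [idt N t k1 (by linarith), idt N (t + h N) (by linarith) (by linarith),
      idt N (t + h N + h N) (by linarith) (by linarith)]
    have k3 := hl.2 (show t ∈ Ioo a b from ⟨by linarith, by linarith⟩)
      (show t + h N + h N ∈ Ioo a b from ⟨by linarith, by linarith⟩)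
      (show (0 : ℝ) ≤ 1 / 2 by norm_num) (show (0 : ℝ) ≤ 1 / 2 by norm_num) (by norm_num)
    simp only [smul_eq_mul] at k3
    rw [show 1 / 2 * t + 1 / 2 * (t + h N + h N) = t + h N by ring] at k3
    exact div_nonpos_of_nonpos_of_nonneg (div_nonpos_of_nonpos_of_nonneg (by linarith) k0.le) k0.le
  have cS : ∀ N, Continuous (S N) := fun N =>
    continuous_iff_continuousAt.2 fun t => (d1 N t).continuousAt
  have e1 : ∀ N, ∫ t in (a + h N)..(b - 3 * h N), F t * S N t ^ m = ∫ t in Ioo a b,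
      (Ioc (a + h N) (b - 3 * h N)).indicator (fun t => F t * S N t ^ m) t := fun N => by
    rw [intervalIntegral.integral_of_le (by linarith [h0 N, h1 N]),
      setIntegral_indicator measurableSet_Ioc, inter_eq_right.2
        (Ioc_subset_Ioo_right (by linarith [h0 N]) |>.trans
          (Ioo_subset_Ioo_left (by linarith [h0 N])))]
  simp only [e1]
  refine tendsto_integral_of_dominated_convergence (fun t => |F t| * C ^ m) (fun N => ?_) ?_
    (fun N => ae_of_all _ fun t => ?_) ?_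
  · exact (cF.mul ((cS N).pow m)).aestronglyMeasurable.indicator measurableSet_Ioc
  · exact ((cF.abs.mul continuous_const).integrableOn_Icc (a := a) (b := b)).mono_set
      Ioo_subset_Icc_self
  · refine (norm_indicator_le_norm_self _ _).trans ?_
    rw [norm_mul, norm_pow, Real.norm_eq_abs, Real.norm_eq_abs, abs_of_pos (bd N t).1]
    exact mul_le_mul_of_nonneg_left (pow_le_pow_left₀ (bd N t).1.le (bd N t).2 m) (abs_nonneg _)
  · refine (ae_restrict_iff' measurableSet_Ioo).2 (ae_of_all _ fun t ht => ?_)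
    choose x hx ex using fun N => val N t
    have t1 : Tendsto x atTop (𝓝 t) := by
      refine tendsto_of_tendsto_of_tendsto_of_le_of_le tendsto_const_nhds ?_ (fun N => (hx N).1.le)
        fun N => (hx N).2.le
      simpa using (h2.const_mul 2).const_add t
    have t2 := ((((cl.continuousAt (isOpen_Ioo.mem_nhds ht)).tendsto.comp t1).pow m).const_mul
      (F t))
    refine t2.congr' ?_
    filter_upwards [h2.eventually (gt_mem_nhds (sub_pos.2 ht.1)),
      h2.eventually (gt_mem_nhds (show 0 < (b - t) / 3 by linarith [ht.2]))] with N k1 k2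
    rw [indicator_of_mem (show t ∈ Ioc (a + h N) (b - 3 * h N) from ⟨by linarith, by linarith⟩),
      ex N, idt N _ (by linarith [(hx N).1]) (by linarith [(hx N).2])]
    rfl

/-- The inequality on a needle. -/
theorem needle (H : Par m β lam j k θ) (κ0 : 0 < κ) (hq : c1 ^ 2 < κ * c0) {a b C M : ℝ}
    (hab : a < b) {l U U' : ℝ → ℝ} (hl : ConcaveOn ℝ (Ioo a b) l)
    (pos : ∀ t ∈ Ioo a b, 0 < l t ∧ l t ≤ C)
    (hU : ∀ t, HasDerivAt U (U' t) t) (cU' : Continuous U') (hM : ∀ t, |U t| ≤ M) :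
    lam * κ * ∫ t in Ioo a b, U t ^ 2 * quad κ c1 c0 t ^ (-β) * l t ^ m ≤
      (∫ t in Ioo a b, U' t ^ 2 * quad κ c1 c0 t * quad κ c1 c0 t ^ (-β) * l t ^ m) +
        lam * κ * (M * |∫ t in Ioo a b, U t * quad κ c1 c0 t ^ (-β) * l t ^ m|) := by
  have cU : Continuous U := continuous_iff_continuousAt.2 fun t => (hU t).continuousAt
  have cq := quad_rpow κ0 hq (-β)
  obtain ⟨u, v, S, S', S'', h1, h2⟩ := approx m hab hl pos
  exact le_of_tendsto_of_tendsto' ((h2 _ ((cU.pow 2).mul cq)).const_mul _)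
    ((h2 _ (((cU'.pow 2).mul quad_cont).mul cq)).add
      ((((h2 _ (cU.mul cq)).abs).const_mul M).const_mul _))
    fun N => smooth' H κ0 hq (h1 N).1 (h1 N).2.1 (h1 N).2.2.1 (h1 N).2.2.2 hU cU' hM

end Pool.Agent.MP_5b99fd_an
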