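import Mathlib
import Pool.Agent.MP_5b99fd_an.Cut
import Pool.Agent.MP_5b99fd_an.Needle

/-!
The inequality on every convex domain.
-/

set_option autoImplicit false

open MeasureTheory Real Set Filter Topology
open scoped RealInnerProductSpace

namespace Pool.Agent.MP_5b99fd_an

variable {m n : ℕ} {β lam j k θ : ℝ}

theorem rho_cont (r : ℝ) : Continuous fun x : Eu n => (1 + ‖x‖ ^ 2) ^ r :=
  Continuous.rpow_const (by fun_prop) fun x => Or.inl (by positivity)

theorem intOn {P : Set (Eu n)} (hb : Bornology.IsBounded P) {f : Eu n → ℝ} (hf : Continuous f) :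
    IntegrableOn f P :=
  (hf.continuousOn.integrableOn_compact hb.isCompact_closure).mono_set subset_closure

theorem near {P : Set (Eu n)} (hb : Bornology.IsBounded P) {f g : Eu n → ℝ} (hf : Continuous f)
    (hg : Continuous g) {η : ℝ} (h : ∀ x ∈ P, |f x - g x| ≤ η) :
    |(∫ x in P, f x) - ∫ x in P, g x| ≤ η * volume.real P := by
  rw [← integral_sub (intOn hb hf) (intOn hb hg)]
  exact norm_setIntegral_le_of_norm_le_const (f := fun x => f x - g x) hb.measure_lt_top h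

theorem piece (hm : 1 ≤ m) (H : Par m β lam j k θ) {P : Set (Eu (m + 1))} (hP : IsOpen P)
    (hc : Convex ℝ P) (hb : Bornology.IsBounded P) (hne : P.Nonempty) {u : Eu (m + 1) → ℝ}
    (hu : ContDiff ℝ 1 u) {M : ℝ} (hM : ∀ x, |u x| ≤ M) {i : Fin (m + 1)} (q : Eu (m + 1))
    {v : Eu (m + 1)} (hv : v i = 1) :
    lam * ∫ z in P, (1 + ‖q + z i • v‖ ^ 2) ^ (-β) * u (q + z i • v) ^ 2 ≤
      (∫ z in P, (1 + ‖q + z i • v‖ ^ 2) ^ (1 - β) * ‖fderiv ℝ u (q + z i • v)‖ ^ 2) +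
        lam * (M * |∫ z in P, (1 + ‖q + z i • v‖ ^ 2) ^ (-β) * u (q + z i • v)|) := by
  have v0 : v ≠ 0 := by rintro rfl; simp at hv
  have κ0 : 0 < ‖v‖ ^ 2 := by positivity
  have hq : ⟪q, v⟫ ^ 2 < ‖v‖ ^ 2 * (1 + ‖q‖ ^ 2) := by
    have := pow_le_pow_left₀ (abs_nonneg _) (abs_real_inner_le_norm q v) 2
    rw [sq_abs, mul_pow] at this
    nlinarith
  have e1 : ∀ t : ℝ, quad (‖v‖ ^ 2) ⟪q, v⟫ (1 + ‖q‖ ^ 2) t = 1 + ‖q + t • v‖ ^ 2 := fun t => by
    rw [norm_add_sq_real, real_inner_smul_right, norm_smul, mul_pow, Real.norm_eq_abs, sq_abs, quad]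
    ring
  have cX : Continuous fun t : ℝ => q + t • v := by fun_prop
  have cu := hu.continuous
  have cD := hu.continuous_fderiv one_ne_zero
  have cw : ∀ r : ℝ, Continuous fun t : ℝ => (1 + ‖q + t • v‖ ^ 2) ^ r := fun r =>
    (rho_cont r).comp cX
  have cU' : Continuous fun t : ℝ => fderiv ℝ u (q + t • v) v := by fun_prop
  obtain ⟨a, b, C, l, hab, hl, pos, hF⟩ := profile hm i hP hc hb hne
  have h1 := needle H κ0 hq hab hl pos (U := fun t => u (q + t • v))
    (U' := fun t => fderiv ℝ u (q + t • v) v) (fun t =>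
      ((hu.differentiable one_ne_zero _).hasFDerivAt.comp_hasDerivAt t
        (((hasDerivAt_id' t).smul_const v).const_add q)).congr_deriv (by simp)) cU' fun t => hM _
  simp only [e1] at h1
  have c2 : Continuous fun t : ℝ => fderiv ℝ u (q + t • v) v ^ 2 * (1 + ‖q + t • v‖ ^ 2) *
      (1 + ‖q + t • v‖ ^ 2) ^ (-β) := Continuous.mul (by fun_prop) (cw _)
  have c1 : Continuous fun t : ℝ => u (q + t • v) ^ 2 * (1 + ‖q + t • v‖ ^ 2) ^ (-β) :=
    ((cu.comp cX).pow 2).mul (cw (-β))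
  have c3 : Continuous fun t : ℝ => u (q + t • v) * (1 + ‖q + t • v‖ ^ 2) ^ (-β) :=
    (cu.comp cX).mul (cw (-β))
  rw [← hF _ c1, ← hF _ c2, ← hF _ c3] at h1
  have cp : Continuous fun z : Eu (m + 1) => z i := by fun_prop
  have h2 : ∫ z in P, fderiv ℝ u (q + z i • v) v ^ 2 * (1 + ‖q + z i • v‖ ^ 2) *
      (1 + ‖q + z i • v‖ ^ 2) ^ (-β) ≤ ‖v‖ ^ 2 *
      ∫ z in P, (1 + ‖q + z i • v‖ ^ 2) ^ (1 - β) * ‖fderiv ℝ u (q + z i • v)‖ ^ 2 := by
    rw [← integral_const_mul]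
    refine integral_mono (intOn hb (c2.comp cp)) (intOn hb (continuous_const.mul
      (((cw _).comp cp).mul (by fun_prop)))) fun z => ?_
    have k0 : 0 < 1 + ‖q + z i • v‖ ^ 2 := by positivity
    have k1 := pow_le_pow_left₀ (norm_nonneg _) ((fderiv ℝ u (q + z i • v)).le_opNorm v) 2
    rw [Real.norm_eq_abs, sq_abs, mul_pow] at k1
    have k2 := mul_le_mul_of_nonneg_right k1 (Real.rpow_pos_of_pos k0 (1 - β)).le
    rw [sub_eq_add_neg, Real.rpow_add k0, Real.rpow_one] at k2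
    simp only [sub_eq_add_neg, Real.rpow_add k0, Real.rpow_one]
    linarith
  simp only [mul_comm _ (_ ^ (-β))] at h1 h2
  refine le_of_mul_le_mul_left ?_ κ0
  linarith

theorem lower (hm : 1 ≤ m) (H : Par m β lam j k θ) {K : Set (Eu (m + 1))} (hK : IsOpen K)
    (hc : Convex ℝ K) {u : Eu (m + 1) → ℝ} (hu : ContDiff ℝ 1 u) (hs : HasCompactSupport u)
    (h0 : ∫ x in K, (1 + ‖x‖ ^ 2) ^ (-β) * u x = 0) :
    lam * ∫ x in K, (1 + ‖x‖ ^ 2) ^ (-β) * u x ^ 2 ≤
      ∫ x in K, (1 + ‖x‖ ^ 2) ^ (1 - β) * ‖fderiv ℝ u x‖ ^ 2 := by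
  have cu := hu.continuous
  have cD := hu.continuous_fderiv one_ne_zero
  set f1 : Eu (m + 1) → ℝ := fun x => (1 + ‖x‖ ^ 2) ^ (-β) * u x ^ 2 with hf1
  set f2 : Eu (m + 1) → ℝ := fun x => (1 + ‖x‖ ^ 2) ^ (1 - β) * ‖fderiv ℝ u x‖ ^ 2 with hf2
  set f3 : Eu (m + 1) → ℝ := fun x => (1 + ‖x‖ ^ 2) ^ (-β) * u x with hf3
  have c1 : Continuous f1 := (rho_cont _).mul (cu.pow 2)
  have c2 : Continuous f2 := (rho_cont _).mul (cD.norm.pow 2)
  have c3 : Continuous f3 := (rho_cont _).mul cu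
  have z0 : ∀ x ∉ tsupport u, f1 x = 0 ∧ f2 x = 0 ∧ f3 x = 0 := fun x hx => by
    simp [hf1, hf2, hf3, image_eq_zero_of_notMem_tsupport hx, fderiv_of_notMem_tsupport ℝ hx]
  have u1 := (HasCompactSupport.intro hs fun x hx => (z0 x hx).1).uniformContinuous_of_continuous c1
  have u2 :=
    (HasCompactSupport.intro hs fun x hx => (z0 x hx).2.1).uniformContinuous_of_continuous c2
  have u3 :=
    (HasCompactSupport.intro hs fun x hx => (z0 x hx).2.2).uniformContinuous_of_continuous c3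
  obtain ⟨M, hM⟩ := cu.bounded_above_of_compact_support hs
  have M0 : 0 ≤ M := (norm_nonneg _).trans (hM 0)
  obtain ⟨R, hR⟩ := hs.isCompact.isBounded.subset_ball 0
  have red : ∀ f : Eu (m + 1) → ℝ, (∀ x ∉ tsupport u, f x = 0) →
      ∫ x in K, f x = ∫ x in K ∩ Metric.ball 0 R, f x := fun f hf =>
    setIntegral_eq_of_subset_of_forall_sdiff_eq_zero hK.measurableSet inter_subset_left
      fun x hx => hf x fun h => hx.2 ⟨hx.1, hR h⟩
  rw [red f3 fun x hx => (z0 x hx).2.2] at h0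
  rw [red f1 fun x hx => (z0 x hx).1, red f2 fun x hx => (z0 x hx).2.1]
  set B := K ∩ Metric.ball 0 R with hB
  have B1 : Bornology.IsBounded B := Metric.isBounded_ball.subset inter_subset_right
  have L0 := H.1
  have tot : ∀ {P : Set (Eu (m + 1))}, Bornology.IsBounded P → ∀ c : ℝ,
      ∫ x in P, (f2 x - lam * f1 x + c) =
        (∫ x in P, f2 x) - lam * (∫ x in P, f1 x) + volume.real P * c := fun hP c => by
    rw [integral_add (f := fun x => f2 x - lam * f1 x) (intOn hP (by fun_prop))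
      (intOn hP continuous_const), integral_sub (intOn hP c2) ((intOn hP c1).const_mul _),
      integral_const_mul]
    simp
  refine le_of_forall_pos_lt_add fun e e0 => lt_of_not_ge fun hlt => ?_
  obtain ⟨η, η0, hη⟩ := exists_pos_mul_lt e0 (volume.real B * (1 + lam + lam * M))
  obtain ⟨d1, d10, k1⟩ := Metric.uniformContinuous_iff.1 u1 η η0
  obtain ⟨d2, d20, k2⟩ := Metric.uniformContinuous_iff.1 u2 η η0
  obtain ⟨d3, d30, k3⟩ := Metric.uniformContinuous_iff.1 u3 η η0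
  obtain ⟨ε, ε0, hε⟩ := exists_pos_mul_lt (lt_min d10 (lt_min d20 d30)) (√(m + 1) * 60)
  obtain ⟨P, p1, p2, p3, p4, p5, p6⟩ := cuts (hK.inter Metric.isOpen_ball)
    (hc.inter (convex_ball 0 R)) B1 (intOn B1 c3)
    (G := fun x => f2 x - lam * f1 x + (1 + lam + lam * M) * η) (intOn B1 (by fun_prop)) h0
    (by rw [tot B1]; linarith) ε0
  have P1 := B1.subset p1
  have hne : P.Nonempty := nonempty_iff_ne_empty.2 (by rintro rfl; simp at p5)
  obtain ⟨i, q, v, hv, hth⟩ := thin p3 P1 hne ε0 p6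
  have hd : ∀ z ∈ P, dist z (q + z i • v) < min d1 (min d2 d3) := fun z hz => by
    refine lt_of_le_of_lt ?_ hε
    rw [EuclideanSpace.dist_eq, mul_assoc, ← Real.sqrt_sq (show 0 ≤ 60 * ε by positivity),
      ← Real.sqrt_mul (by positivity)]
    refine Real.sqrt_le_sqrt ((Finset.sum_le_card_nsmul _ _ ((60 * ε) ^ 2) fun l _ =>
      pow_le_pow_left₀ dist_nonneg (hth z hz l) 2).trans_eq (by simp))
  have cX : Continuous fun z : Eu (m + 1) => q + z i • v := by fun_prop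
  have n1 := near P1 c1 (c1.comp cX) fun z hz => (k1 ((hd z hz).trans_le (by simp))).le
  have n2 := near P1 c2 (c2.comp cX) fun z hz => (k2 ((hd z hz).trans_le (by simp))).le
  have n3 := near P1 c3 (c3.comp cX) fun z hz => (k3 ((hd z hz).trans_le (by simp))).le
  have h1 : lam * ∫ z in P, (f1 ∘ fun z => q + z i • v) z ≤ (∫ z in P, (f2 ∘ fun z => q + z i • v) z)
      + lam * (M * |∫ z in P, (f3 ∘ fun z => q + z i • v) z|) :=
    piece hm H p2 p3 P1 hne hu hM q hv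
  rw [p4, zero_sub, abs_neg] at n3
  rw [tot P1] at p5
  have h2 := mul_le_mul_of_nonneg_left (mul_le_mul_of_nonneg_left n3 M0) L0
  have h3 := mul_le_mul_of_nonneg_left (abs_le.1 n1).2 L0
  linarith [(abs_le.1 n2).1]

end Pool.Agent.MP_5b99fd_an
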