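import Mathlib
import Pool.Agent.MP_5b99fd_an.Lower

/-!
Testing the inequality on thin boxes and thin cones.
-/

set_option autoImplicit false

open MeasureTheory Real Set Filter Topology
open scoped ContDiff

namespace Pool.Agent.MP_5b99fd_an

/-- The inequality holds with constant `L` on every convex domain. -/
def LB (m : ℕ) (β L : ℝ) : Prop :=
  ∀ (K : Set (Eu (m + 1))) (u : Eu (m + 1) → ℝ), IsOpen K → Convex ℝ K → ContDiff ℝ ∞ u →
    HasCompactSupport u → ∫ x in K, (1 + ‖x‖ ^ 2) ^ (-β) * u x = 0 →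
    L * ∫ x in K, (1 + ‖x‖ ^ 2) ^ (-β) * u x ^ 2 ≤
      ∫ x in K, (1 + ‖x‖ ^ 2) ^ (1 - β) * ‖fderiv ℝ u x‖ ^ 2

variable {m : ℕ} {β L : ℝ}

theorem lim1 {x N : ℝ} (h : ∀ ε > 0, x ≤ (1 + ε) ^ β * N) : x ≤ N := by
  have c : ContinuousAt (fun ε : ℝ => (1 + ε) ^ β * N) 0 :=
    (ContinuousAt.rpow_const (by fun_prop) (Or.inl (by simp))).mul continuousAt_const
  have := ge_of_tendsto (c.tendsto.mono_left (nhdsWithin_le_nhds (s := Ioi 0)))
    (eventually_nhdsWithin_of_forall h)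
  simpa using this

theorem cmp {ε x y : ℝ} (hβ : 0 ≤ β) (ε0 : 0 < ε) (x0 : 0 < x) (h : x ≤ (1 + ε) * y) :
    y ^ (-β) ≤ (1 + ε) ^ β * x ^ (-β) := by
  have e0 : 0 < 1 + ε := by linarith
  have y0 : 0 < y := (mul_pos_iff_of_pos_left e0).1 (x0.trans_le h)
  have h1 := Real.rpow_le_rpow_of_nonpos x0 h (neg_nonpos.2 hβ)
  rw [Real.mul_rpow e0.le y0.le, Real.rpow_neg e0.le,
    inv_mul_le_iff₀ (Real.rpow_pos_of_pos e0 _)] at h1
  exact h1

theorem one_cont (r : ℝ) : Continuous fun t : ℝ => (1 + t ^ 2) ^ r :=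
  Continuous.rpow_const (by fun_prop) fun x => Or.inl (by positivity)

theorem test (hβ : 1 ≤ β) (h : LB m β L) (L0 : 0 ≤ L) {a b σ τ d : ℝ} (hab : a < b)
    (hl : ∀ t ∈ Ioo a b, 0 < σ * t + τ) {U : ℝ → ℝ} (hU : ContDiff ℝ ∞ U)
    (hd : ∀ c, d ≤ ∫ t in a..b, (1 + t ^ 2) ^ (-β) * (U t - c) ^ 2 * (σ * t + τ) ^ m) :
    L * d ≤ ∫ t in a..b, (1 + t ^ 2) ^ (1 - β) * deriv U t ^ 2 * (σ * t + τ) ^ m := by
  refine lim1 (β := β) fun ε ε0 => ?_
  set C := |σ| * (|a| + |b|) + |τ| with hC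
  have hlC : ∀ t ∈ Ioo a b, |t| ≤ |a| + |b| ∧ σ * t + τ ≤ C := fun t ht => by
    have h1 : |t| ≤ |a| + |b| := abs_le.2 ⟨by linarith [neg_abs_le a, abs_nonneg b, ht.1],
      by linarith [le_abs_self b, abs_nonneg a, ht.2]⟩
    exact ⟨h1, add_le_add ((le_abs_self _).trans ((abs_mul _ _).trans_le
      (mul_le_mul_of_nonneg_left h1 (abs_nonneg _)))) (le_abs_self _)⟩
  obtain ⟨δ2, δ20, hδ⟩ := exists_pos_mul_lt ε0 (m * C ^ 2)
  obtain ⟨δ, δ0, rfl⟩ : ∃ δ, 0 < δ ∧ δ2 = δ ^ 2 :=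
    ⟨√δ2, Real.sqrt_pos.2 δ20, (Real.sq_sqrt δ20.le).symm⟩
  set K : Set (Eu (m + 1)) := {x | x 0 ∈ Ioo a b ∧ ∀ j : Fin m, |x j.succ| < δ * (σ * x 0 + τ)}
    with hK
  have K1 : IsOpen K := by
    refine (isOpen_Ioo.preimage (show Continuous fun x : Eu (m + 1) => x 0 by fun_prop)).inter ?_
    have : IsOpen (⋂ j : Fin m, {x : Eu (m + 1) | |x j.succ| < δ * (σ * x 0 + τ)}) :=
      isOpen_iInter_of_finite fun j => isOpen_lt (by fun_prop) (by fun_prop)
    convert this using 1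
    ext x
    rw [mem_iInter]
    rfl
  have K2 : Convex ℝ K := by
    refine convex_iff_forall_pos.2 fun x hx y hy s t s0 t0 hst =>
      ⟨convex_Ioo a b hx.1 hy.1 s0.le t0.le hst, fun j => ?_⟩
    have h1 := mul_lt_mul_of_pos_left (hx.2 j) s0
    have h2 := mul_lt_mul_of_pos_left (hy.2 j) t0
    obtain rfl : s = 1 - t := by linarith
    simp only [PiLp.add_apply, PiLp.smul_apply, smul_eq_mul]
    refine (abs_add_le _ _).trans_lt ?_
    rw [abs_mul, abs_mul, abs_of_pos s0, abs_of_pos t0]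
    linarith
  have K3 : ∀ x ∈ K, x 0 ^ 2 ≤ ‖x‖ ^ 2 ∧ ‖x‖ ^ 2 ≤ x 0 ^ 2 + ε := fun x hx => by
    rw [EuclideanSpace.real_norm_sq_eq, Fin.sum_univ_succ]
    have h1 := Finset.sum_le_card_nsmul Finset.univ (fun j : Fin m => x j.succ ^ 2) ((δ * C) ^ 2)
      fun j _ => sq_abs (x j.succ) ▸ pow_le_pow_left₀ (abs_nonneg _) ((hx.2 j).le.trans
        (mul_le_mul_of_nonneg_left (hlC _ hx.1).2 δ0.le)) 2
    simp only [Finset.card_univ, Fintype.card_fin, nsmul_eq_mul] at h1
    exact ⟨le_add_of_nonneg_right (by positivity), by linarith⟩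
  have r0 : 0 < |a| + |b| + ε + 1 := by positivity
  have K4 : K ⊆ Metric.ball 0 (|a| + |b| + ε + 1) := fun x hx => by
    rw [mem_ball_zero_iff]
    refine lt_of_pow_lt_pow_left₀ 2 r0.le ((K3 x hx).2.trans_lt ?_)
    have := pow_le_pow_left₀ (abs_nonneg _) (hlC _ hx.1).1 2
    rw [sq_abs] at this
    nlinarith [abs_nonneg a, abs_nonneg b]
  have K5 : Bornology.IsBounded K := Metric.isBounded_ball.subset K4
  have K6 : ∀ F : ℝ → ℝ, Continuous F →
      ∫ x in K, F (x 0) = (2 * δ) ^ m * ∫ t in a..b, F t * (σ * t + τ) ^ m := fun F hF => by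
    rw [int_slice 0 K1 K5 hF, intervalIntegral.integral_of_le hab.le, integral_Ioc_eq_integral_Ioo,
      ← integral_const_mul, ← setIntegral_eq_integral_of_forall_compl_eq_zero (s := Ioo a b)]
    · refine setIntegral_congr_fun measurableSet_Ioo fun t ht => ?_
      have e : sl 0 K t = Metric.ball 0 (δ * (σ * t + τ)) := by
        ext y
        rw [mem_ball_zero_iff, pi_norm_lt_iff (mul_pos δ0 (hl t ht))]
        simp [sl, hK, ins, ht.1, ht.2]
      simp only [e, Measure.real, Real.volume_pi_ball _ (mul_pos δ0 (hl t ht)), Fintype.card_fin]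
      rw [ENNReal.toReal_ofReal (by have := hl t ht; positivity), ← mul_assoc 2, mul_pow]
      ring
    · intro t ht
      have e : sl 0 K t = ∅ := eq_empty_of_forall_notMem fun y hy => ht (by simpa [ins] using hy.1)
      simp [e]
  have K7 : K.Nonempty := ⟨EuclideanSpace.single 0 ((a + b) / 2), by
    have h1 : (a + b) / 2 ∈ Ioo a b := ⟨by linarith, by linarith⟩
    exact ⟨by simpa using h1, fun j => by simpa using mul_pos δ0 (hl _ h1)⟩⟩
  have cp : Continuous fun x : Eu (m + 1) => x 0 := by fun_prop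
  have cU := hU.continuous
  have cU' := hU.continuous_deriv (by simp)
  have Z0 : 0 < ∫ x in K, (1 + ‖x‖ ^ 2) ^ (-β) := by
    rw [integral_pos_iff_support_of_nonneg (fun x => by positivity) (intOn K5 (rho_cont _)),
      Function.support_eq_univ fun x => by positivity, Measure.restrict_apply_univ]
    exact K1.measure_pos _ K7
  set c := (∫ x in K, (1 + ‖x‖ ^ 2) ^ (-β) * U (x 0)) / ∫ x in K, (1 + ‖x‖ ^ 2) ^ (-β) with hc
  let χ : ContDiffBump (0 : Eu (m + 1)) := ⟨_, _, r0, lt_add_one _⟩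
  have sp : ContDiff ℝ ∞ fun x : Eu (m + 1) => U (x 0) - c :=
    (hU.comp (EuclideanSpace.proj (𝕜 := ℝ) (0 : Fin (m + 1))).contDiff).sub contDiff_const
  have ev : ∀ x ∈ K, (fun x => χ x * (U (x 0) - c)) =ᶠ[𝓝 x] fun x => U (x 0) - c := fun x hx => by
    filter_upwards [K1.mem_nhds hx] with y hy
    rw [χ.one_of_mem_closedBall (Metric.ball_subset_closedBall (K4 hy)), one_mul]
  have dn : ∀ x ∈ K, ‖fderiv ℝ (fun x => χ x * (U (x 0) - c)) x‖ ^ 2 ≤ deriv U (x 0) ^ 2 := by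
    intro x hx
    have h1 := ((hU.differentiable (by simp) (x 0)).hasDerivAt.comp_hasFDerivAt x
      (EuclideanSpace.proj (𝕜 := ℝ) (0 : Fin (m + 1))).hasFDerivAt).sub_const c
    rw [(ev x hx).fderiv_eq, show fderiv ℝ (fun x : Eu (m + 1) => U (x 0) - c) x = _ from h1.fderiv,
      ← sq_abs (deriv U _)]
    refine pow_le_pow_left₀ (norm_nonneg _) (ContinuousLinearMap.opNorm_le_bound _ (abs_nonneg _)
      fun y => ?_) 2
    simpa using mul_le_mul_of_nonneg_left (PiLp.norm_apply_le y 0) (abs_nonneg (deriv U (x 0)))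
  have su := χ.contDiff.mul sp
  have h1 := h K _ K1 K2 su χ.hasCompactSupport.mul_right (by
    rw [setIntegral_congr_fun K1.measurableSet (g := fun x => (1 + ‖x‖ ^ 2) ^ (-β) * U (x 0) -
      c * (1 + ‖x‖ ^ 2) ^ (-β)) fun x hx => by simp only [(ev x hx).eq_of_nhds]; ring,
      integral_sub (f := fun x : Eu (m + 1) => (1 + ‖x‖ ^ 2) ^ (-β) * U (x 0))
        (intOn K5 ((rho_cont _).mul (cU.comp cp))) ((intOn K5 (rho_cont _)).const_mul _),
      integral_const_mul, hc, div_mul_cancel₀ _ Z0.ne', sub_self])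
  have c1 : Continuous fun t => (1 + t ^ 2) ^ (-β) * (U t - c) ^ 2 := (one_cont _).mul (by fun_prop)
  have c2 : Continuous fun t => (1 + t ^ 2) ^ (1 - β) * deriv U t ^ 2 :=
    (one_cont _).mul (by fun_prop)
  have h2 : ∫ x in K, (1 + x 0 ^ 2) ^ (-β) * (U (x 0) - c) ^ 2 ≤
      (1 + ε) ^ β * ∫ x in K, (1 + ‖x‖ ^ 2) ^ (-β) * (χ x * (U (x 0) - c)) ^ 2 := by
    rw [← integral_const_mul]
    refine setIntegral_mono_on (intOn K5 (c1.comp cp)) ((intOn K5 ((rho_cont _).mul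
      (su.continuous.pow 2))).const_mul _) K1.measurableSet fun x hx => ?_
    rw [show χ x * (U (x 0) - c) = _ from (ev x hx).eq_of_nhds, ← mul_assoc]
    exact mul_le_mul_of_nonneg_right (cmp (by linarith) ε0 (by positivity)
      (by nlinarith [(K3 x hx).2, sq_nonneg (x 0)])) (sq_nonneg _)
  have h3 : ∫ x in K, (1 + ‖x‖ ^ 2) ^ (1 - β) * ‖fderiv ℝ (fun x => χ x * (U (x 0) - c)) x‖ ^ 2 ≤
      ∫ x in K, (1 + x 0 ^ 2) ^ (1 - β) * deriv U (x 0) ^ 2 :=
    setIntegral_mono_on (intOn K5 ((rho_cont _).mul ((su.continuous_fderiv (by simp)).norm.pow 2)))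
      (intOn K5 (c2.comp cp)) K1.measurableSet fun x hx => mul_le_mul
        (Real.rpow_le_rpow_of_nonpos (by positivity) (by linarith [(K3 x hx).1]) (by linarith))
        (dn x hx) (by positivity) (by positivity)
  rw [K6 _ c1] at h2
  rw [K6 _ c2] at h3
  have p0 : 0 < (2 * δ) ^ m := by positivity
  have p1 : 0 < (1 + ε) ^ β := by positivity
  have h4 := mul_le_mul_of_nonneg_left (h1.trans h3) p1.le
  have h5 := mul_le_mul_of_nonneg_left ((mul_le_mul_of_nonneg_left (hd c) p0.le).trans h2) L0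
  refine le_of_mul_le_mul_left ?_ p0
  linarith

theorem var {a b Z c : ℝ} {w U : ℝ → ℝ} (hab : a ≤ b) (cw : ContinuousOn w (Icc a b))
    (cU : ContinuousOn U (Icc a b)) (Z0 : 0 < Z) (hZ : Z ≤ ∫ t in a..b, w t) :
    (∫ t in a..b, w t * U t ^ 2) - (∫ t in a..b, w t * U t) ^ 2 / Z ≤
      ∫ t in a..b, w t * (U t - c) ^ 2 := by
  have i0 := cw.intervalIntegrable_of_Icc (μ := volume) hab
  have i1 : IntervalIntegrable (fun t => w t * U t) volume a b :=
    (cw.mul cU).intervalIntegrable_of_Icc hab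
  have i2 : IntervalIntegrable (fun t => w t * U t ^ 2) volume a b :=
    (cw.mul (cU.pow 2)).intervalIntegrable_of_Icc hab
  have h4 : ∫ t in a..b, w t * (U t - c) ^ 2 = (∫ t in a..b, w t * U t ^ 2) -
      2 * c * (∫ t in a..b, w t * U t) + c ^ 2 * ∫ t in a..b, w t := by
    rw [← intervalIntegral.integral_const_mul, ← intervalIntegral.integral_const_mul,
      ← intervalIntegral.integral_sub i2 (i1.const_mul _),
      ← intervalIntegral.integral_add (i2.sub (i1.const_mul _)) (i0.const_mul _)]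
    exact intervalIntegral.integral_congr fun t _ => by ring
  rw [h4]
  generalize (∫ t in a..b, w t * U t) = I
  have h5 : 0 ≤ (I - c * Z) ^ 2 / Z := by positivity
  have h6 : (I - c * Z) ^ 2 / Z = I ^ 2 / Z - 2 * c * I + c ^ 2 * Z := by field_simp; ring
  linarith [mul_le_mul_of_nonneg_left hZ (sq_nonneg c)]

theorem extend {a b : ℝ} (a0 : 0 < a) (hab : a < b) {U : ℝ → ℝ} (hU : ContDiffOn ℝ ∞ U (Ioi 0)) :
    ∃ V : ℝ → ℝ, ContDiff ℝ ∞ V ∧ ∀ t ∈ Icc a b, V =ᶠ[𝓝 t] U := by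
  let χ : ContDiffBump b := ⟨b - a / 2, b - a / 4, by linarith, by linarith⟩
  refine ⟨fun t => χ t * U t, contDiff_iff_contDiffAt.2 fun t => ?_, fun t ht => ?_⟩
  · by_cases ht : 0 < t
    · exact χ.contDiff.contDiffAt.mul (hU.contDiffAt (Ioi_mem_nhds ht))
    · refine (contDiffAt_const (c := (0 : ℝ))).congr_of_eventuallyEq ?_
      filter_upwards [Iio_mem_nhds (show t < a / 4 by linarith)] with s hs
      rw [χ.zero_of_le_dist, zero_mul]
      rw [dist_comm, Real.dist_eq]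
      exact le_trans (show b - a / 4 ≤ b - s by linarith [mem_Iio.1 hs]) (le_abs_self _)
  · filter_upwards [Ioo_mem_nhds (show a / 2 < t by linarith [ht.1])
      (show t < 2 * b - a / 2 by linarith [ht.2])] with s hs
    rw [χ.one_of_mem_closedBall, one_mul]
    rw [Metric.mem_closedBall, Real.dist_eq]
    exact abs_le.2 ⟨show -(b - a / 2) ≤ _ by linarith [hs.1], show _ ≤ b - a / 2 by linarith [hs.2]⟩

theorem rp_cont {a b : ℝ} (a0 : 0 < a) (p : ℝ) : ContinuousOn (fun t : ℝ => t ^ p) (Icc a b) :=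
  continuousOn_id.rpow_const fun _ ht => Or.inl (a0.trans_le ht.1).ne'

/-- The homogeneous model on thin cones far from the origin. -/
theorem hom (hβ : 1 ≤ β) (h : LB m β L) (L0 : 0 ≤ L) {R s ε lam : ℝ} (R0 : 0 < R) (hs : s ≤ R)
    (ε0 : 0 < ε) (hε : 1 ≤ ε * R ^ 2) {U U' : ℝ → ℝ} (hU : ContDiffOn ℝ ∞ U (Ioi 0))
    (dU : ∀ t > 0, HasDerivAt U (U' t) t)
    (ev : ∀ η > 0, ∃ T ≥ 2 * R, 0 < ∫ t in R..T, t ^ (-2 * β) * (t - s) ^ m * U t ^ 2 ∧
      (∫ t in R..T, t ^ (-2 * β) * (t - s) ^ m * U t) ^ 2 ≤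
        η * ∫ t in R..T, t ^ (-2 * β) * (t - s) ^ m * U t ^ 2 ∧
      ∫ t in R..T, t ^ (2 - 2 * β) * (t - s) ^ m * U' t ^ 2 ≤
        (lam + η) * ∫ t in R..T, t ^ (-2 * β) * (t - s) ^ m * U t ^ 2) :
    L ≤ (1 + ε) ^ β * lam := by
  have cw : ∀ p T : ℝ, ContinuousOn (fun t : ℝ => t ^ p * (t - s) ^ m) (Icc R T) := fun p T =>
    (rp_cont R0 p).mul (show Continuous fun t : ℝ => (t - s) ^ m by fun_prop).continuousOn
  have Z0 : 0 < ∫ t in R..2 * R, t ^ (-2 * β) * (t - s) ^ m :=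
    intervalIntegral.intervalIntegral_pos_of_pos_on ((cw _ _).intervalIntegrable_of_Icc (by linarith))
      (fun t ht => mul_pos (Real.rpow_pos_of_pos (R0.trans ht.1) _)
        (pow_pos (by linarith [ht.1]) _)) (by linarith)
  set Z := ∫ t in R..2 * R, t ^ (-2 * β) * (t - s) ^ m with hZ
  have p1 : 0 < (1 + ε) ^ β := by positivity
  refine le_of_forall_pos_le_add fun e e0 => ?_
  obtain ⟨η, η0, hη⟩ := exists_pos_mul_lt e0 (L / Z + (1 + ε) ^ β)
  obtain ⟨T, hT, k1, k2, k3⟩ := ev η η0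
  have RT : R < T := by linarith
  obtain ⟨V, sV, eV⟩ := extend R0 RT hU
  have cU : ContinuousOn U (Icc R T) := hU.continuousOn.mono fun t ht => R0.trans_le ht.1
  have cV := sV.continuous
  have cV' := sV.continuous_deriv (by simp)
  have V' : ∀ t ∈ Icc R T, deriv V t = U' t := fun t ht =>
    (eV t ht).deriv_eq.trans (dU t (R0.trans_le ht.1)).deriv
  have hZT : Z ≤ ∫ t in R..T, t ^ (-2 * β) * (t - s) ^ m :=
    intervalIntegral.integral_mono_interval le_rfl (by linarith) hT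
      ((ae_restrict_iff' measurableSet_Ioc).2 (ae_of_all _ fun t ht => mul_nonneg
        (Real.rpow_nonneg (R0.trans ht.1).le _) (pow_nonneg (by linarith [ht.1]) _)))
      ((cw _ _).intervalIntegrable_of_Icc RT.le)
  have sq : ∀ t > 0, ∀ p : ℝ, (t ^ 2 : ℝ) ^ p = t ^ (2 * p) := fun t t0 p => by
    rw [Real.rpow_mul (le_of_lt t0), Real.rpow_two]
  generalize hD : (∫ t in R..T, t ^ (-2 * β) * (t - s) ^ m * U t ^ 2) = D at k1 k2 k3
  have h1 := test hβ h L0 RT (σ := 1) (τ := -s) (fun t ht => by linarith [ht.1]) sV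
    (d := (D - η * D / Z) / (1 + ε) ^ β) fun c => by
      rw [div_le_iff₀' p1, ← intervalIntegral.integral_const_mul]
      refine le_trans ?_ ((var (c := c) RT.le (cw (-2 * β) T) cU Z0 hZT).trans
        (intervalIntegral.integral_mono_on RT.le
          (((cw _ _).mul ((cU.sub continuousOn_const).pow 2)).intervalIntegrable_of_Icc RT.le)
          ((Continuous.intervalIntegrable (((one_cont _).mul (by fun_prop)).mul (by fun_prop))
            _ _).const_mul _) fun t ht => ?_))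
      · rw [hD]
        exact sub_le_sub_left (div_le_div_of_nonneg_right k2 Z0.le) _
      · have t0 := R0.trans_le ht.1
        have k4 := cmp (β := β) (x := 1 + t ^ 2) (y := t ^ 2) (by linarith) ε0 (by positivity)
          (by nlinarith [mul_le_mul_of_nonneg_left (pow_le_pow_left₀ R0.le ht.1 2) ε0.le])
        rw [sq t t0, show 2 * -β = -2 * β by ring] at k4
        have k5 := mul_le_mul_of_nonneg_right k4 (mul_nonneg
          (pow_nonneg (show 0 ≤ t - s by linarith [ht.1]) m) (sq_nonneg (U t - c)))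
        rw [(eV t ht).eq_of_nhds, one_mul, ← sub_eq_add_neg]
        linarith
  have h2 : ∫ t in R..T, (1 + t ^ 2) ^ (1 - β) * deriv V t ^ 2 * (1 * t + -s) ^ m ≤
      ∫ t in R..T, t ^ (2 - 2 * β) * (t - s) ^ m * U' t ^ 2 := by
    refine intervalIntegral.integral_mono_on RT.le
      (Continuous.intervalIntegrable (((one_cont _).mul (by fun_prop)).mul (by fun_prop)) _ _)
      (((cw _ _).mul ((cV'.continuousOn.congr fun t ht => (V' t ht).symm).pow
        2)).intervalIntegrable_of_Icc RT.le) fun t ht => ?_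
    have t0 := R0.trans_le ht.1
    have k4 := Real.rpow_le_rpow_of_nonpos (x := t ^ 2) (y := 1 + t ^ 2) (z := 1 - β)
      (by positivity) (by linarith) (by linarith)
    rw [sq t t0, show 2 * (1 - β) = 2 - 2 * β by ring] at k4
    have k5 := mul_le_mul_of_nonneg_right k4 (mul_nonneg
      (pow_nonneg (show 0 ≤ t - s by linarith [ht.1]) m) (sq_nonneg (U' t)))
    rw [V' t ht, one_mul, ← sub_eq_add_neg]
    linarith
  have h3 := (h1.trans h2).trans k3
  rw [← mul_div_assoc, div_le_iff₀ p1] at h3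
  refine le_of_mul_le_mul_right ?_ k1
  have h4 := mul_le_mul_of_nonneg_right hη.le k1.le
  have h5 : L * (D - η * D / Z) = L * D - L / Z * η * D := by ring
  linarith

end Pool.Agent.MP_5b99fd_an
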