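import Mathlib
import Pool.Agent.MP_5b99fd_an.Test

/-!
The three families of test functions.
-/

set_option autoImplicit false

open MeasureTheory Real Set Filter Topology
open scoped ContDiff

namespace Pool.Agent.MP_5b99fd_an

variable {m : ℕ} {β L : ℝ}

theorem eig {a b lam : ℝ} {w U U' F : ℝ → ℝ} (hab : a ≤ b) (cw : ContinuousOn w (Icc a b))
    (dU : ∀ t ∈ Icc a b, HasDerivAt U (U' t) t) (cU' : ContinuousOn U' (Icc a b))
    (dF : ∀ t ∈ Icc a b, HasDerivAt F (-(lam * (w t * U t))) t) :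
    ∫ t in a..b, F t * U' t = lam * (∫ t in a..b, w t * U t ^ 2) + (F b * U b - F a * U a) ∧
      lam * ∫ t in a..b, w t * U t = F a - F b := by
  have cU : ContinuousOn U (Icc a b) := fun t ht => (dU t ht).continuousAt.continuousWithinAt
  have cF : ContinuousOn F (Icc a b) := fun t ht => (dF t ht).continuousAt.continuousWithinAt
  have i1 : IntervalIntegrable (fun t => lam * (w t * U t)) volume a b :=
    ((cw.mul cU).intervalIntegrable_of_Icc hab).const_mul _
  have i2 : IntervalIntegrable (fun t => lam * (w t * U t ^ 2)) volume a b :=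
    ((cw.mul (cU.pow 2)).intervalIntegrable_of_Icc hab).const_mul _
  have i3 : IntervalIntegrable (fun t => F t * U' t) volume a b :=
    (cF.mul cU').intervalIntegrable_of_Icc hab
  rw [← uIcc_of_le hab] at dU dF
  have h1 := intervalIntegral.integral_eq_sub_of_hasDerivAt dF i1.neg
  have h2 := intervalIntegral.integral_eq_sub_of_hasDerivAt (f := fun t => F t * U t)
    (fun t ht => ((dF t ht).mul (dU t ht)).congr_deriv (by ring)) (i3.sub i2)
  rw [intervalIntegral.integral_neg, intervalIntegral.integral_const_mul] at h1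
  rw [intervalIntegral.integral_sub i3 i2, intervalIntegral.integral_const_mul] at h2
  exact ⟨by linarith, by linarith⟩

theorem sharp1 (hβ : 3 / 2 < β) (h : LB m β L) (L0 : 0 ≤ L) : L ≤ 2 * (β - 1) := by
  have c2 : Continuous fun t : ℝ => (1 + t ^ 2) ^ (-β) * t ^ 2 := (one_cont _).mul (by fun_prop)
  have D0 : 0 < ∫ t in (0 : ℝ)..1, (1 + t ^ 2) ^ (-β) * t ^ 2 :=
    intervalIntegral.intervalIntegral_pos_of_pos_on (c2.intervalIntegrable _ _)
      (fun t ht => by have := ht.1; positivity) one_pos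
  refine le_of_forall_pos_le_add fun e e0 => ?_
  obtain ⟨T, hT, T1⟩ := (((tendsto_rpow_neg_atTop (show 0 < 2 * β - 3 by linarith)).eventually
    (ge_mem_nhds (half_pos (mul_pos e0 D0)))).and (eventually_ge_atTop 1)).exists
  have T2 : -T < T := by linarith
  obtain ⟨k1, k2⟩ := eig (lam := 2 * (β - 1)) (U := fun t => t) (U' := fun _ => 1)
    (F := fun t => (1 + t ^ 2) ^ (1 - β)) T2.le (one_cont (-β)).continuousOn
    (fun t _ => hasDerivAt_id' t) continuousOn_const fun t _ =>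
      ((((hasDerivAt_id' t).pow 2).const_add 1).rpow_const (p := 1 - β)
        (Or.inl (by simp only [Pi.pow_apply]; positivity))).congr_deriv (by
          simp only [Pi.pow_apply, show 1 - β - 1 = -β by ring]; simp; ring)
  rw [neg_sq, sub_self, mul_eq_zero, or_iff_right (by linarith)] at k2
  have Z0 : 0 < ∫ t in -T..T, (1 + t ^ 2) ^ (-β) :=
    intervalIntegral.intervalIntegral_pos_of_pos ((one_cont _).intervalIntegrable _ _)
      (fun t => by positivity) T2
  have h1 := test (by linarith) h L0 T2 (σ := 0) (τ := 1) (by simp) contDiff_id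
    (d := ∫ t in -T..T, (1 + t ^ 2) ^ (-β) * t ^ 2) fun c => by
      simpa [k2] using var (c := c) (U := fun t => t) T2.le (one_cont (-β)).continuousOn
        continuousOn_id Z0 le_rfl
  simp only [deriv_id, one_pow, zero_mul, zero_add, mul_one] at h1 k1
  have h2 : ∫ t in (0 : ℝ)..1, (1 + t ^ 2) ^ (-β) * t ^ 2 ≤ ∫ t in -T..T, (1 + t ^ 2) ^ (-β) * t ^ 2 :=
    intervalIntegral.integral_mono_interval (by linarith) zero_le_one T1
      (ae_of_all _ fun t => by positivity) (c2.intervalIntegrable _ _)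
  have h3 : (1 + T ^ 2) ^ (1 - β) * T ≤ T ^ (-(2 * β - 3)) := by
    have T0 : 0 < T := by linarith
    rw [show -(2 * β - 3) = 2 * (1 - β) + 1 by ring, Real.rpow_add_one T0.ne', Real.rpow_mul T0.le,
      Real.rpow_two]
    exact mul_le_mul_of_nonneg_right
      (Real.rpow_le_rpow_of_nonpos (by positivity) (by linarith) (by linarith)) T0.le
  rw [k1, neg_sq] at h1
  refine le_of_mul_le_mul_right ?_ (D0.trans_le h2)
  linarith [mul_le_mul_of_nonneg_left h2 e0.le]

theorem big {ε : ℝ} (ε0 : 0 < ε) : ∃ R : ℝ, 0 < R ∧ 1 ≤ ε * R ^ 2 :=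
  ⟨1 + 1 / ε, by positivity, by
    have h1 : ε * (1 / ε) = 1 := by field_simp
    have h2 : 0 < 1 / ε := by positivity
    nlinarith⟩

theorem rp_smooth (p : ℝ) : ContDiffOn ℝ ∞ (fun t : ℝ => t ^ p) (Ioi 0) := fun _ ht =>
  (Real.contDiffAt_rpow_const_of_ne (ne_of_gt ht)).contDiffWithinAt

theorem rp_der (p : ℝ) {t : ℝ} (t0 : 0 < t) :
    HasDerivAt (fun t : ℝ => t ^ p) (p * t ^ (p - 1)) t :=
  Real.hasDerivAt_rpow_const (Or.inl t0.ne')

theorem sharp2 {p : ℝ} (hβ : 1 ≤ β) (p0 : 0 < p) (hp : 2 * β = m + 1 + 2 * p) (h : LB m β L)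
    (L0 : 0 ≤ L) : L ≤ p ^ 2 := by
  refine lim1 (β := β) fun ε ε0 => ?_
  obtain ⟨R, R0, hR⟩ := big ε0
  refine hom hβ h L0 R0 R0.le ε0 hR (rp_smooth p) (fun t t0 => rp_der p t0) fun η η0 => ?_
  obtain ⟨c, c0, hc⟩ : ∃ c, 0 ≤ c ∧ (R ^ (-p) / p) ^ 2 = η * c :=
    ⟨(R ^ (-p) / p) ^ 2 / η, by positivity, by field_simp⟩
  have T2 : 2 * R ≤ R * exp (c + 1) := by nlinarith [Real.add_one_le_exp (c + 1)]
  refine ⟨R * exp (c + 1), T2, ?_⟩
  generalize hT : R * exp (c + 1) = T at T2
  have RT : R ≤ T := by linarith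
  have e1 : ∀ t : ℝ, 0 < t → t ^ (-2 * β) * (t - 0) ^ m = (t * (t ^ p) ^ 2)⁻¹ := fun t t0 => by
    rw [sub_zero, ← Real.rpow_natCast, ← Real.rpow_add t0, ← Real.rpow_mul_natCast t0.le,
      ← Real.rpow_one_add' t0.le (by positivity), ← Real.rpow_neg t0.le]
    congr 1
    push_cast
    linarith
  obtain ⟨k1, k2⟩ := eig (lam := p ^ 2) (w := fun t => t ^ (-2 * β) * (t - 0) ^ m)
    (F := fun t => p * t ^ (-p)) RT ((rp_cont R0 _).mul (by fun_prop))
    (fun t ht => rp_der p (R0.trans_le ht.1)) (continuousOn_const.mul (rp_cont R0 _)) fun t ht => by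
      have t0 := R0.trans_le ht.1
      refine ((rp_der (-p) t0).const_mul p).congr_deriv ?_
      have := Real.rpow_pos_of_pos t0 p
      rw [e1 t t0, Real.rpow_sub_one t0.ne', Real.rpow_neg t0.le]
      field_simp
  have hD : ∫ t in R..T, t ^ (-2 * β) * (t - 0) ^ m * (t ^ p) ^ 2 = c + 1 := by
    rw [intervalIntegral.integral_congr (g := fun t => t⁻¹) fun t ht => ?_,
      integral_inv_of_pos R0 (by linarith), ← hT, mul_div_cancel_left₀ _ R0.ne', Real.log_exp]
    rw [uIcc_of_le RT] at ht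
    have t0 := R0.trans_le ht.1
    have := Real.rpow_pos_of_pos t0 p
    simp only [e1 t t0]
    field_simp
  have hN : ∫ t in R..T, t ^ (2 - 2 * β) * (t - 0) ^ m * (p * t ^ (p - 1)) ^ 2 =
      ∫ t in R..T, p * t ^ (-p) * (p * t ^ (p - 1)) := intervalIntegral.integral_congr fun t ht => by
    rw [uIcc_of_le RT] at ht
    have t0 := R0.trans_le ht.1
    have := Real.rpow_pos_of_pos t0 p
    rw [show 2 - 2 * β = 2 + -2 * β by ring, Real.rpow_add t0, mul_assoc (t ^ (2 : ℝ)), e1 t t0,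
      Real.rpow_sub_one t0.ne', Real.rpow_neg t0.le, Real.rpow_two]
    field_simp
  have e2 : ∀ t : ℝ, 0 < t → p * t ^ (-p) * t ^ p = p := fun t t0 => by
    have := Real.rpow_pos_of_pos t0 p
    rw [Real.rpow_neg t0.le]
    field_simp
  rw [hN, k1, e2 R R0, e2 T (by linarith), hD]
  refine ⟨by linarith, ?_, by nlinarith⟩
  have a1 := Real.rpow_le_rpow_of_nonpos R0 RT (neg_nonpos.2 p0.le)
  have a2 := Real.rpow_pos_of_pos (show 0 < T by linarith) (-p)
  rw [eq_div_of_mul_eq (pow_pos p0 2).ne' ((mul_comm _ _).trans k2)]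
  refine le_trans (pow_le_pow_left₀ (div_nonneg (by nlinarith) (by positivity)) ?_ 2)
    (hc.trans_le (by nlinarith))
  rw [div_le_div_iff₀ (by positivity) p0]
  nlinarith [mul_pos (mul_pos p0 p0) a2]

theorem sharp3 {b : ℝ} (hβ : 1 ≤ β) (b1 : 1 < b) (b2 : b ≤ 2) (hb : 2 * β = (m + 2) * b)
    (hM : 2 * b + (m + 1) < 2 * β) (h : LB m β L) (L0 : 0 ≤ L) : L ≤ (m + 1) * b * (b - 1) := by
  refine lim1 (β := β) fun ε ε0 => ?_
  obtain ⟨R, R0, hR⟩ := big ε0
  have b0 : 0 < b := by linarith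
  have b3 : 0 < b - 1 := by linarith
  set U : ℝ → ℝ := fun t => t ^ b / b - R * t ^ (b - 1) / (b - 1) with hU
  have sU : ContDiffOn ℝ ∞ U (Ioi 0) :=
    ((rp_smooth b).div_const b).sub ((contDiffOn_const.mul (rp_smooth _)).div_const _)
  have dU : ∀ t > 0, HasDerivAt U (t ^ (b - 1) - R * t ^ (b - 1 - 1)) t := fun t t0 =>
    (((rp_der b t0).div_const b).sub (((rp_der (b - 1) t0).const_mul R).div_const _)).congr_deriv
      (by field_simp)
  refine hom hβ h L0 R0 le_rfl ε0 hR sU dU fun η η0 => ?_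
  have cw : ∀ T : ℝ, ContinuousOn (fun t : ℝ => t ^ (-2 * β) * (t - R) ^ m) (Icc R T) := fun T =>
    (rp_cont R0 _).mul (show Continuous fun t : ℝ => (t - R) ^ m by fun_prop).continuousOn
  have cD : ∀ T : ℝ, ContinuousOn (fun t : ℝ => t ^ (-2 * β) * (t - R) ^ m * U t ^ 2) (Icc R T) :=
    fun T => (cw T).mul ((sU.continuousOn.mono fun t ht => R0.trans_le ht.1).pow 2)
  have D0 : 0 < ∫ t in R..2 * R, t ^ (-2 * β) * (t - R) ^ m * U t ^ 2 := by
    refine intervalIntegral.intervalIntegral_pos_of_pos_on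
      ((cD _).intervalIntegrable_of_Icc (by linarith)) (fun t ht => ?_) (by linarith)
    have t0 := R0.trans ht.1
    have a1 := Real.rpow_pos_of_pos t0 b
    have a2 : U t < 0 := by
      simp only [hU]
      rw [Real.rpow_sub_one t0.ne', sub_neg, div_lt_div_iff₀ b0 b3, mul_div_assoc',
        div_mul_eq_mul_div, lt_div_iff₀ t0]
      have : (b - 1) * t < R * b := by nlinarith [ht.2]
      nlinarith
    exact mul_pos (mul_pos (Real.rpow_pos_of_pos t0 _) (pow_pos (sub_pos.2 ht.1) _))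
      (sq_pos_of_neg a2)
  have l0 : 0 < (m + 1) * b * (b - 1) := by positivity
  have t1 := tendsto_rpow_neg_atTop (show 0 < 2 * β - (2 * b + (m + 1)) by linarith)
  have t2 := (t1.div_const ((m + 1) * b * (b - 1))).pow 2
  rw [zero_div, zero_pow two_ne_zero] at t2
  obtain ⟨T, ⟨T1, T2⟩, T3, T4⟩ := (((t1.eventually (ge_mem_nhds (mul_pos η0 D0))).and
    (t2.eventually (ge_mem_nhds (mul_pos η0 D0)))).and
    ((eventually_ge_atTop 1).and (eventually_ge_atTop (2 * R)))).exists
  have RT : R ≤ T := by linarith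
  have T0 : 0 < T := by linarith
  have hD : ∫ t in R..2 * R, t ^ (-2 * β) * (t - R) ^ m * U t ^ 2 ≤
      ∫ t in R..T, t ^ (-2 * β) * (t - R) ^ m * U t ^ 2 :=
    intervalIntegral.integral_mono_interval le_rfl (by linarith) T4
      ((ae_restrict_iff' measurableSet_Ioc).2 (ae_of_all _ fun t ht => mul_nonneg (mul_nonneg
        (Real.rpow_nonneg (R0.trans ht.1).le _) (pow_nonneg (sub_nonneg.2 ht.1.le) _))
          (sq_nonneg _))) ((cD _).intervalIntegrable_of_Icc RT)
  obtain ⟨k1, k2⟩ := eig (lam := (m + 1) * b * (b - 1))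
    (F := fun t => t ^ (b + -2 * β) * (t - R) ^ (m + 1)) RT (cw T)
    (fun t ht => dU t (R0.trans_le ht.1))
    ((rp_cont R0 _).sub (continuousOn_const.mul (rp_cont R0 _))) fun t ht => by
      have t0 := R0.trans_le ht.1
      refine ((rp_der _ t0).mul (((hasDerivAt_id' t).sub_const R).pow (m + 1))).congr_deriv ?_
      simp only [hU, Pi.pow_apply, Nat.add_sub_cancel, Real.rpow_sub_one t0.ne', Real.rpow_add t0]
      generalize t ^ (-2 * β) = B
      rw [show b + -2 * β = -((m + 1) * b) by linarith]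
      push_cast
      field_simp
      ring
  have hN : ∫ t in R..T, t ^ (2 - 2 * β) * (t - R) ^ m * (t ^ (b - 1) - R * t ^ (b - 1 - 1)) ^ 2 =
      ∫ t in R..T, t ^ (b + -2 * β) * (t - R) ^ (m + 1) * (t ^ (b - 1) - R * t ^ (b - 1 - 1)) :=
    intervalIntegral.integral_congr fun t ht => by
      rw [uIcc_of_le RT] at ht
      have t0 := R0.trans_le ht.1
      simp only [show 2 - 2 * β = 2 + -2 * β by ring, Real.rpow_sub_one t0.ne', Real.rpow_add t0,
        Real.rpow_two]
      field_simp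
      ring
  simp only [sub_self, zero_pow (Nat.succ_ne_zero m), mul_zero, zero_mul, sub_zero, zero_sub]
    at k1 k2
  have f0 : 0 ≤ T ^ (b + -2 * β) * (T - R) ^ (m + 1) :=
    mul_nonneg (Real.rpow_nonneg T0.le _) (pow_nonneg (by linarith) _)
  have f1 : T ^ (b + -2 * β) * (T - R) ^ (m + 1) * T ^ b ≤ T ^ (-(2 * β - (2 * b + (m + 1)))) := by
    rw [show -(2 * β - (2 * b + (m + 1))) = b + -2 * β + ((m + 1 : ℕ) : ℝ) + b by push_cast; ring,
      Real.rpow_add T0 _ b, Real.rpow_add T0 _ ((m + 1 : ℕ) : ℝ), Real.rpow_natCast]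
    gcongr
    linarith
  have f2 : 1 ≤ T ^ b := Real.one_le_rpow T3 b0.le
  have f3 : U T ≤ T ^ b := (sub_le_self _ (by positivity)).trans (div_le_self (by linarith) b1.le)
  refine ⟨T, T4, D0.trans_le hD, ?_, ?_⟩
  · refine le_trans ?_ (T2.trans (mul_le_mul_of_nonneg_left hD η0.le))
    rw [eq_div_of_mul_eq l0.ne' ((mul_comm _ _).trans k2), neg_div, neg_sq]
    gcongr
    exact (le_mul_of_one_le_right f0 f2).trans f1
  · rw [hN, k1]
    linarith [mul_le_mul_of_nonneg_left hD η0.le, mul_le_mul_of_nonneg_left f3 f0]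

end Pool.Agent.MP_5b99fd_an
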