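import Mathlib
import Pool.Agent.MP_5b99fd_an.Sharp

/-!
The sharp constant: the inequality holds with `L` on every convex domain iff `L ≤ Λ`.
-/

set_option autoImplicit false

namespace Pool.Agent.MP_5b99fd_an

variable {m : ℕ} {β : ℝ}

theorem LB.of_par {lam j k θ : ℝ} (hm : 1 ≤ m) (H : Par m β lam j k θ) : 0 ≤ lam ∧ LB m β lam :=
  ⟨H.1, fun _ _ h1 h2 h3 h4 h5 => lower hm H h1 h2 (h3.of_le (by simp)) h4 h5⟩

theorem case1 (hm : 1 ≤ m) (hβ : m + 2 ≤ β) : (0 ≤ 2 * (β - 1) ∧ LB m β (2 * (β - 1))) ∧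
    ∀ L, 0 ≤ L → LB m β L → L ≤ 2 * (β - 1) := by
  have m1 : (1 : ℝ) ≤ m := by exact_mod_cast hm
  have h2 : 0 < β - 2 := by linarith
  obtain ⟨k, hk⟩ : ∃ k, k * (β - 2) = (β - 1) * m := ⟨(β - 1) * m / (β - 2), by field_simp⟩
  have k0 : 0 ≤ k := nonneg_of_mul_nonneg_left (hk ▸ mul_nonneg (by linarith) (by linarith)) h2
  have k1 : k ≤ m + 1 := le_of_mul_le_mul_right (by linarith) h2
  refine ⟨LB.of_par hm (j := β - 1) (k := k) (θ := 0) ⟨by linarith, k0, le_rfl, by linarith,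
    fun y s => ?_⟩, fun L L0 h => sharp1 (by linarith) h L0⟩
  rw [show k * (β - 2 * (β - 1)) + (β - 1) * m = 0 by linarith]
  linarith [mul_nonneg (mul_nonneg k0 (sub_nonneg.2 k1)) (sq_nonneg y)]

theorem case2 (hm : 1 ≤ m) {b : ℝ} (hb : 2 * β = (m + 2) * b) (b1 : m + 1 < m * b) (b2 : b ≤ 2) :
    (0 ≤ (m + 1) * b * (b - 1) ∧ LB m β ((m + 1) * b * (b - 1))) ∧
    ∀ L, 0 ≤ L → LB m β L → L ≤ (m + 1) * b * (b - 1) := by
  have m1 : (1 : ℝ) ≤ m := by exact_mod_cast hm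
  have b3 : 1 < b := lt_of_mul_lt_mul_left (a := (m : ℝ)) (by linarith) (by linarith)
  have b4 : 0 ≤ b - 1 := by linarith
  have b5 : 0 ≤ 1 - b / 2 := by linarith
  refine ⟨LB.of_par hm (j := (m + 1) * b / 2) (k := m + 1) (θ := (m + 1) * b / 2 * (1 - b / 2))
    ⟨by positivity, by positivity, by positivity, by linarith, fun y s => ?_⟩,
    fun L L0 h => sharp3 (by nlinarith) b3 b2 hb (by linarith) h L0⟩
  rw [show β = (m + 2) * b / 2 by linarith]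
  exact le_of_eq (by ring)

theorem case3 (hm : 1 ≤ m) {p : ℝ} (hp : 2 * β = m + 1 + 2 * p) (p0 : 0 < p) (p1 : m * p ≤ m + 1) :
    (0 ≤ p ^ 2 ∧ LB m β (p ^ 2)) ∧ ∀ L, 0 ≤ L → LB m β L → L ≤ p ^ 2 := by
  have m1 : (1 : ℝ) ≤ m := by exact_mod_cast hm
  have p2 : 0 ≤ m + 1 - p := by nlinarith
  refine ⟨LB.of_par hm (j := (m + 1) * p / 2) (k := m * p) (θ := p * (m + 1 - p) / 4)
    ⟨by positivity, by positivity, by positivity, by linarith, fun y s => ?_⟩,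
    fun L L0 h => sharp2 (by linarith) p0 hp h L0⟩
  rw [show β = (m + 1 + 2 * p) / 2 by linarith]
  exact (mul_nonneg (mul_nonneg (by positivity : 0 ≤ m * p) (sub_nonneg.2 p1))
    (sq_nonneg (y - s / 2))).trans_eq (by ring)

end Pool.Agent.MP_5b99fd_an
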